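import Pool.Agent.X98.SL.Conc

set_option autoImplicit false
set_option linter.unusedSectionVars false

/-!
# Existence and uniqueness of the formal solution of the Schlesinger equations
-/

namespace Pool.Agent.X98.SL

open Pool.Agent.X98.KZ Pool.Agent.X98.SC PowerSeries

variable {F : Type*} [Field F] [CharZero F] {ι : Type*} [Fintype ι] [DecidableEq ι]
  {r : Type*} [Fintype r] [DecidableEq r]

/-- The right hand side. -/
noncomputable def rhs (g : ι → ι → F⟦X⟧) (A : ι → Matrix r r F⟦X⟧) (i : ι) : Matrix r r F⟦X⟧ :=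
  -∑ j, g i j • (A i * A j - A j * A i)

lemma cm_sum {R : Type*} [CommRing R] (m : ℕ) {α : Type*} (s : Finset α)
    (f : α → Matrix r r R⟦X⟧) : cm m (∑ i ∈ s, f i) = ∑ i ∈ s, cm m (f i) := by
  ext1 a b
  simp only [cm, Matrix.map_apply, Matrix.sum_apply, map_sum]

lemma cm_psmul {R : Type*} [CommRing R] (m : ℕ) (g : R⟦X⟧) (Z : Matrix r r R⟦X⟧) :
    cm m (g • Z) = ∑ ij ∈ Finset.HasAntidiagonal.antidiagonal m,
      coeff ij.1 g • cm ij.2 Z := by
  ext1 a b
  rw [cm, Matrix.map_apply, Matrix.smul_apply, smul_eq_mul, coeff_mul, Matrix.sum_apply]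
  rfl

lemma rhs_causal (g : ι → ι → F⟦X⟧) (A B : ι → Matrix r r F⟦X⟧) (k : ℕ)
    (h : ∀ i, ∀ j ≤ k, cm j (A i) = cm j (B i)) (i : ι) : cm k (rhs g A i) = cm k (rhs g B i) := by
  have hmul : ∀ i j, ∀ m ≤ k, cm m (A i * A j) = cm m (B i * B j) := by
    intro i j m hm
    rw [cm_mul, cm_mul]
    refine Finset.sum_congr rfl fun ij hij => ?_
    rw [Finset.HasAntidiagonal.mem_antidiagonal] at hij
    rw [h _ _ (by omega), h _ _ (by omega)]
  rw [rhs, rhs, cm_neg, cm_neg, cm_sum, cm_sum]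
  congr 1
  refine Finset.sum_congr rfl fun j _ => ?_
  rw [cm_psmul, cm_psmul]
  refine Finset.sum_congr rfl fun ij hij => ?_
  rw [Finset.HasAntidiagonal.mem_antidiagonal] at hij
  rw [cm_sub, cm_sub, hmul _ _ _ (by omega), hmul _ _ _ (by omega)]

/-- Picard iteration. -/
noncomputable def pic (g : ι → ι → F⟦X⟧) (A0 : ι → Matrix r r F) : ℕ → ι → Matrix r r F⟦X⟧
  | 0 => fun i => mkm fun k => if k = 0 then A0 i else 0
  | n + 1 => fun i => mkm fun k => match k with
    | 0 => A0 i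
    | k + 1 => ((k : F) + 1)⁻¹ • cm k (rhs g (pic g A0 n) i)

lemma cm_pic_zero (g : ι → ι → F⟦X⟧) (A0 : ι → Matrix r r F) (n : ℕ) (i : ι) :
    cm 0 (pic g A0 n i) = A0 i := by
  rcases n with _ | n
  · rw [pic, cm_mkm, if_pos rfl]
  · rw [pic, cm_mkm]

lemma cm_pic_succ (g : ι → ι → F⟦X⟧) (A0 : ι → Matrix r r F) (n k : ℕ) (i : ι) :
    cm (k + 1) (pic g A0 (n + 1) i) = ((k : F) + 1)⁻¹ • cm k (rhs g (pic g A0 n) i) := by
  rw [pic, cm_mkm]

lemma pic_stab (g : ι → ι → F⟦X⟧) (A0 : ι → Matrix r r F) (n : ℕ) :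
    ∀ i, ∀ k ≤ n, cm k (pic g A0 (n + 1) i) = cm k (pic g A0 n i) := by
  induction n with
  | zero =>
    intro i k hk
    obtain rfl : k = 0 := by omega
    rw [cm_pic_zero, cm_pic_zero]
  | succ n ih =>
    intro i k hk
    rcases k with _ | k
    · rw [cm_pic_zero, cm_pic_zero]
    · rw [cm_pic_succ, cm_pic_succ]
      congr 1
      exact rhs_causal g _ _ k (fun l j hj => ih l j (by omega)) i

lemma pic_stab' (g : ι → ι → F⟦X⟧) (A0 : ι → Matrix r r F) (k n : ℕ) (hkn : k ≤ n) (i : ι) :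
    cm k (pic g A0 n i) = cm k (pic g A0 k i) := by
  induction n, hkn using Nat.le_induction with
  | base => rfl
  | succ n hn ih => rw [pic_stab g A0 n i k hn, ih]

lemma cm_derivative (m : ℕ) (Y : Matrix r r F⟦X⟧) :
    cm m (Y.map (derivative F)) = ((m : F) + 1) • cm (m + 1) Y := by
  rw [cm_deriv]
  push_cast
  rfl

lemma ext_cm' {Y Z : Matrix r r F⟦X⟧} (h : ∀ m, cm m Y = cm m Z) : Y = Z := ext_cm h

/-- Existence. -/
theorem exists_sol (g : ι → ι → F⟦X⟧) (A0 : ι → Matrix r r F) :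
    ∃ A : ι → Matrix r r F⟦X⟧, (∀ i, cm 0 (A i) = A0 i) ∧
      ∀ i, (A i).map (derivative F) = rhs g A i := by
  set A : ι → Matrix r r F⟦X⟧ := fun i => mkm fun k => cm k (pic g A0 k i) with hA
  have h1 : ∀ i k, cm k (A i) = cm k (pic g A0 k i) := fun i k => cm_mkm _ _
  refine ⟨A, fun i => by rw [h1, cm_pic_zero], fun i => ext_cm' fun k => ?_⟩
  rw [cm_derivative, h1, cm_pic_succ, smul_smul, mul_inv_cancel₀, one_smul]
  · refine rhs_causal g _ _ k (fun l j hj => ?_) i
    rw [h1, pic_stab' g A0 j k hj]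
  · exact_mod_cast Nat.succ_ne_zero k

/-- Uniqueness. -/
theorem unique_sol (g : ι → ι → F⟦X⟧) (A B : ι → Matrix r r F⟦X⟧)
    (h0 : ∀ i, cm 0 (A i) = cm 0 (B i)) (hA : ∀ i, (A i).map (derivative F) = rhs g A i)
    (hB : ∀ i, (B i).map (derivative F) = rhs g B i) : A = B := by
  have h : ∀ k, ∀ i, cm k (A i) = cm k (B i) := by
    intro k
    induction k using Nat.strong_induction_on with
    | _ k ih =>
      intro i
      rcases k with _ | k
      · exact h0 i
      · have h1 := congrArg (cm k) (hA i)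
        have h2 := congrArg (cm k) (hB i)
        rw [cm_derivative] at h1 h2
        rw [rhs_causal g A B k (fun l j hj => ih j (by omega) l) i, ← h2] at h1
        have h3 : ((k : F) + 1) ≠ 0 := by exact_mod_cast Nat.succ_ne_zero k
        exact smul_right_injective _ h3 h1
  funext i
  exact ext_cm' fun k => h k i

end Pool.Agent.X98.SL
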