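import Pool.Agent.X98.SL.PCv
import Pool.Agent.X98.SL.Ex

set_option autoImplicit false
set_option linter.unusedSectionVars false

/-!
# Integrality at `p`
-/

namespace Pool.Agent.X98.SL

open Pool.Agent.X98.KZ Pool.Agent.X98.SC

/-- `x ∈ K` is integral at `p` over `R`: `m x ∈ R` for some integer `m` prime to `p`. -/
def PInt (R : Type*) {K : Type*} [CommRing R] [Field K] [Algebra R K] (p : ℕ) (x : K) : Prop :=
  ∃ (m : ℕ) (y : R), ¬ p ∣ m ∧ (m : K) * x = algebraMap R K y

/-- `x ∈ K` is zero modulo `p`: `m x ∈ p R` for some integer `m` prime to `p`. -/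
def PZero (R : Type*) {K : Type*} [CommRing R] [Field K] [Algebra R K] (p : ℕ) (x : K) : Prop :=
  ∃ (m : ℕ) (y : R), ¬ p ∣ m ∧ (m : K) * x = algebraMap R K ((p : R) * y)

variable (R : Type*) {K : Type*} [CommRing R] [Field K] [Algebra R K]

/-- The ring of the elements integral at `p`. -/
def Op {p : ℕ} (hp : p.Prime) : Subring K where
  carrier := {x | PInt R p x}
  mul_mem' := by
    rintro x y ⟨m, a, hm, ha⟩ ⟨m', a', hm', ha'⟩
    refine ⟨m * m', a * a', fun h => (hp.dvd_mul.mp h).elim hm hm', ?_⟩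
    rw [map_mul, ← ha, ← ha']
    push_cast
    ring
  one_mem' := ⟨1, 1, hp.one_lt.ne' ∘ Nat.dvd_one.mp, by simp⟩
  add_mem' := by
    rintro x y ⟨m, a, hm, ha⟩ ⟨m', a', hm', ha'⟩
    refine ⟨m * m', m' * a + m * a', fun h => (hp.dvd_mul.mp h).elim hm hm', ?_⟩
    rw [map_add, map_mul, map_mul, ← ha, ← ha', map_natCast, map_natCast]
    push_cast
    ring
  zero_mem' := ⟨1, 0, hp.one_lt.ne' ∘ Nat.dvd_one.mp, by simp⟩
  neg_mem' := by
    rintro x ⟨m, a, hm, ha⟩
    exact ⟨m, -a, hm, by rw [map_neg, ← ha]; ring⟩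

/-- The inclusion. -/
def rho {p : ℕ} (hp : p.Prime) : R →+* (Op R hp : Subring K) :=
  (algebraMap R K).codRestrict (Op R hp) fun x =>
    ⟨1, x, hp.one_lt.ne' ∘ Nat.dvd_one.mp, by simp⟩

lemma rho_coe {p : ℕ} (hp : p.Prime) (x : R) : ((rho R hp x : (Op R hp : Subring K)) : K) =
    algebraMap R K x := rfl

lemma Op_unit [CharZero K] {p : ℕ} (hp : p.Prime) (m : ℕ) (hm : ¬ p ∣ m) :
    IsUnit ((m : ℕ) : (Op R hp : Subring K)) := by
  have hm0 : (m : K) ≠ 0 := by
    have : m ≠ 0 := fun h => hm (h ▸ dvd_zero p)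
    exact_mod_cast this
  refine IsUnit.of_mul_eq_one ⟨(m : K)⁻¹, ⟨m, 1, hm, by rw [map_one, mul_inv_cancel₀ hm0]⟩⟩ ?_
  apply Subtype.ext
  push_cast
  exact mul_inv_cancel₀ hm0

lemma PInt.of_mul {p : ℕ} (hp : p.Prime) {v : ℕ} (hv : ¬ p ∣ v) {x : K}
    (h : PInt R p ((v : K) * x)) : PInt R p x := by
  obtain ⟨m, y, hm, hy⟩ := h
  refine ⟨m * v, y, fun h => (hp.dvd_mul.mp h).elim hm hv, ?_⟩
  rw [← hy]
  push_cast
  ring

lemma PZero.of_mul {p : ℕ} (hp : p.Prime) {v : ℕ} (hv : ¬ p ∣ v) {x : K}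
    (h : PZero R p ((v : K) * x)) : PZero R p x := by
  obtain ⟨m, y, hm, hy⟩ := h
  refine ⟨m * v, y, fun h => (hp.dvd_mul.mp h).elim hm hv, ?_⟩
  rw [← hy]
  push_cast
  ring

lemma curv_map_gen {S S' : Type*} [CommRing S] [CommRing S'] {ι : Type*} [Fintype ι]
    [DecidableEq ι] {r : Type*} [Fintype r] [DecidableEq r] (φ : S →+* S')
    (z : ι → S) (A0 : ι → Matrix r r S) (m : ℕ) :
    (curv A0 z m).map (Polynomial.mapRingHom φ) =
      curv (fun i => (A0 i).map φ) (fun i => φ (z i)) m := by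
  rw [curv_eq, IF_map, curv_eq, TT_map, Matrix.map_one _ (map_zero _) (map_one _)]
  congr 1
  rw [NN, NN, sum_map_hom]
  refine Finset.sum_congr rfl fun i _ => ?_
  rw [smul_map_hom, Polynomial.coe_mapRingHom, Tc_map]
  congr 1
  ext1 a b
  simp

lemma not_dvd_wt {p : ℕ} (hp : p.Prime) {k : ℕ} (hk : k < p ^ 2) : ¬ p ∣ (k / p).factorial := by
  rw [hp.dvd_factorial, not_le]
  exact Nat.div_lt_of_lt_mul (by rwa [← pow_two])

variable {R}

/-- The two statements at one prime. -/
theorem at_prime [CharZero K] {ι : Type*} [Fintype ι] [DecidableEq ι] {r : Type*} [Fintype r]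
    [DecidableEq r] {p : ℕ} (hp : p.Prime) (z c : ι → R)
    (hz : ∀ i j, i ≠ j → IsUnit (z i - z j)) (A0 : ι → Matrix r r R)
    (h : ∀ a b, (p : Polynomial R) ∣ curv A0 z p a b)
    (A : ι → Matrix r r (PowerSeries K))
    (hA0 : ∀ i, (A i).map (PowerSeries.constantCoeff (R := K)) = (A0 i).map (algebraMap R K))
    (hA : Schl (fun i => algebraMap R K (z i)) (fun i => algebraMap R K (c i)) A) :
    (∀ i k a b, PInt R p (((k / p).factorial : K) * PowerSeries.coeff k (A i a b))) ∧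
    (∀ k l a b, PZero R p (((k / p).factorial : K) * PowerSeries.coeff k
      ((curv A (pos (fun i => algebraMap R K (z i)) (fun i => algebraMap R K (c i))) p a b).coeff
        l))) := by
  set O : Subring K := Op R hp with hO
  set φ : O →+* K := O.subtype with hφ
  set ρ : R →+* O := rho R hp with hρ
  choose e he using h
  have hE : curv (fun i => (A0 i).map ρ) (fun i => ρ (z i)) p =
      (p : Polynomial O) • (Matrix.of e).map (Polynomial.mapRingHom ρ) := by
    rw [← curv_map_gen]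
    ext1 a b
    rw [Matrix.map_apply, he, map_mul, map_natCast]
    rfl
  have hz' : ∀ i j, i ≠ j → IsUnit (ρ (z i) - ρ (z j)) := by
    intro i j hij
    rw [← map_sub]
    exact (hz i j hij).map ρ
  have hA0' : ∀ i, (A i).map (PowerSeries.constantCoeff (R := K)) = ((A0 i).map ρ).map φ := by
    intro i
    rw [hA0]
    rfl
  constructor
  · intro i k a b
    obtain ⟨M, hM⟩ := main_int φ hp (fun m hm => Op_unit R hp m hm) (fun i => ρ (z i))
      (fun i => ρ (c i)) hz' (fun i => (A0 i).map ρ) _ hE A hA0' hA k i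
    have h1 := congrFun (congrFun hM a) b
    rw [Matrix.map_apply, Matrix.smul_apply, smul_eq_mul] at h1
    have h2 : PInt R p (φ (M a b)) := (M a b).2
    rw [h1] at h2
    exact h2
  · intro k l a b
    obtain ⟨y, hy⟩ := main_pc φ hp (fun m hm => Op_unit R hp m hm) (fun i => ρ (z i))
      (fun i => ρ (c i)) hz' (fun i => (A0 i).map ρ) _ hE A hA0' hA k l a b
    obtain ⟨m, x, hm, hx⟩ := y.2
    refine ⟨m, x, hm, ?_⟩
    have h3 : (m : K) * φ y = algebraMap R K x := hx
    rw [map_mul, map_natCast, ← h3]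
    have h4 : (p : K) * φ y = ((k / p).factorial : K) * PowerSeries.coeff k
      ((curv A (pos (fun i => algebraMap R K (z i)) (fun i => algebraMap R K (c i))) p a b).coeff
        l) := hy
    rw [← h4]
    ring

end Pool.Agent.X98.SL
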