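import Pool.Agent.X98.SL.Gen

set_option autoImplicit false
set_option linter.unusedSectionVars false

/-!
# The zero curvature equation from the Schlesinger equations (abstract form)
-/

namespace Pool.Agent.X98.SL

open Pool.Agent.X98.KZ

variable {S : Type*} [CommRing S] {ι : Type*} [Fintype ι] [DecidableEq ι]
  {r : Type*} [Fintype r] [DecidableEq r]

lemma sum_map_der (D : Der S) {α : Type*} (s : Finset α)
    (f : α → Matrix r r S) : (∑ j ∈ s, f j).map D = ∑ j ∈ s, (f j).map D := by
  classical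
  induction s using Finset.induction_on with
  | empty => ext1 i j; simp
  | insert i s hi ih =>
    rw [Finset.sum_insert hi, Finset.sum_insert hi, ← ih]
    exact Matrix.map_add _ (map_add D) _ _

lemma neg_map_der (D : Der S) (M : Matrix r r S) : (-M).map D = -M.map D := by
  ext1 i j
  simp only [Matrix.map_apply, Matrix.neg_apply, map_neg]

/-- The zero curvature equation. -/
theorem zero_curv_abs (Ds Dx : Der S) (t t1 : S) (e κ : ι → S)
    (B : ι → Matrix r r S) (g a : ι → ι → S) (hga : ∀ i j, i ≠ j → g i j * a i j = 1)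
    (ha : ∀ i j, a j i = -a i j) (hea : ∀ i j, e i * e j * a i j = t * (e i - e j))
    (hse : ∀ i, Ds (e i) = κ i * e i ^ 2) (hxe : ∀ i, Dx (e i) = (t1 - e i) * e i)
    (hxκ : ∀ i, Dx (κ i) = 0) (hBx : ∀ i, (B i).map Dx = 0)
    (hBs : ∀ i, (B i).map Ds = -∑ j, (t * ((κ i - κ j) * g i j)) • (B i * B j - B j * B i)) :
    (∑ i, e i • B i).map Ds = (-∑ i, (κ i * e i) • B i).map Dx - t1 • (-∑ i, (κ i * e i) • B i) +
      ((-∑ i, (κ i * e i) • B i) * (∑ i, e i • B i) -
        (∑ i, e i • B i) * (-∑ i, (κ i * e i) • B i)) := by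
  have hS : ∃ Sm : ι → ι → Matrix r r S, ∀ i j, Sm i j = g i j • (B i * B j - B j * B i) :=
    ⟨_, fun _ _ => rfl⟩
  obtain ⟨Sm, hSm⟩ := hS
  have hSii : ∀ i, Sm i i = 0 := by
    intro i
    rw [hSm, sub_self, smul_zero]
  have hSs : ∀ i j, Sm i j = Sm j i := by
    intro i j
    by_cases hij : i = j
    · rw [hij]
    · have h1 := hga i j hij
      have h2 := hga j i (Ne.symm hij)
      rw [ha i j] at h2
      have h4 : g j i = -g i j := by
        linear_combination (-g j i) * h1 - g i j * h2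
      rw [hSm, hSm, h4, neg_smul, ← smul_neg, neg_sub]
  have hee : ∀ i j, (e i * e j) • (B i * B j - B j * B i) = (t * (e i - e j)) • Sm i j := by
    intro i j
    by_cases hij : i = j
    · rw [hij, hSii, sub_self, smul_zero, smul_zero]
    · have h1 := hga i j hij
      rw [hSm, smul_smul, ← hea]
      congr 1
      linear_combination (-e i * e j) * h1
  have hdB : ∀ i, (B i).map Ds = -∑ j, (t * (κ i - κ j)) • Sm i j := by
    intro i
    rw [hBs i]
    congr 1
    refine Finset.sum_congr rfl fun j _ => ?_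
    rw [hSm, smul_smul]
    congr 1
    ring
  have h1 : (∑ i, e i • B i).map Ds = ∑ i, (κ i * e i ^ 2) • B i -
      ∑ i, ∑ j, (t * (κ i - κ j) * e i) • Sm i j := by
    rw [sum_map_der, ← Finset.sum_sub_distrib]
    refine Finset.sum_congr rfl fun i _ => ?_
    rw [mat_smul, hdB, hse, smul_neg, Finset.smul_sum, ← sub_eq_add_neg]
    congr 1
    refine Finset.sum_congr rfl fun j _ => ?_
    rw [smul_smul]
    congr 1
    ring
  have h2 : (-∑ i, (κ i * e i) • B i).map Dx = -∑ i, (κ i * ((t1 - e i) * e i)) • B i := by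
    rw [neg_map_der, sum_map_der]
    congr 1
    refine Finset.sum_congr rfl fun i _ => ?_
    rw [mat_smul, hBx, smul_zero, add_zero, Derivation.leibniz, hxκ, hxe]
    simp only [smul_eq_mul, mul_zero, add_zero]
  have h3 : (-∑ i, (κ i * e i) • B i) * (∑ i, e i • B i) -
        (∑ i, e i • B i) * (-∑ i, (κ i * e i) • B i) =
      -∑ i, ∑ j, (κ i * (t * (e i - e j))) • Sm i j := by
    have h4 : (-∑ i, (κ i * e i) • B i) * (∑ i, e i • B i) =
        -∑ i, ∑ j, (κ i * e i * e j) • (B i * B j) := by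
      rw [neg_mul, Finset.sum_mul_sum]
      congr 1
      refine Finset.sum_congr rfl fun i _ => Finset.sum_congr rfl fun j _ => ?_
      rw [smul_mul_smul_comm]
    have h5 : (∑ i, e i • B i) * (-∑ i, (κ i * e i) • B i) =
        -∑ i, ∑ j, (κ i * e i * e j) • (B j * B i) := by
      rw [mul_neg, Finset.sum_mul_sum, Finset.sum_comm]
      congr 1
      refine Finset.sum_congr rfl fun i _ => Finset.sum_congr rfl fun j _ => ?_
      rw [smul_mul_smul_comm]
      congr 1
      ring
    rw [h4, h5, sub_neg_eq_add, neg_add_eq_sub, ← Finset.sum_sub_distrib, ← neg_inj, neg_neg,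
      ← Finset.sum_neg_distrib]
    refine Finset.sum_congr rfl fun i _ => ?_
    rw [← Finset.sum_sub_distrib, ← Finset.sum_neg_distrib]
    refine Finset.sum_congr rfl fun j _ => ?_
    rw [mul_smul (κ i) (t * (e i - e j)), ← hee, smul_smul, ← smul_sub, ← smul_neg,
      neg_sub, mul_assoc]
  have h6 : ∑ i, ∑ j, (t * e i * κ j) • Sm i j =
      ∑ i, ∑ j, (t * e j * κ i) • Sm i j := by
    rw [Finset.sum_comm]
    refine Finset.sum_congr rfl fun i _ => Finset.sum_congr rfl fun j _ => ?_
    rw [hSs]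
  have h7 : ∑ i, ∑ j, (t * (κ i - κ j) * e i) • Sm i j =
      ∑ i, ∑ j, (κ i * (t * (e i - e j))) • Sm i j := by
    rw [← sub_eq_zero]
    have h8 : ∑ i, ∑ j, (t * (κ i - κ j) * e i) • Sm i j -
        ∑ i, ∑ j, (κ i * (t * (e i - e j))) • Sm i j =
        ∑ i, ∑ j, (t * e j * κ i) • Sm i j -
        ∑ i, ∑ j, (t * e i * κ j) • Sm i j := by
      simp only [← Finset.sum_sub_distrib, ← sub_smul]
      refine Finset.sum_congr rfl fun i _ => Finset.sum_congr rfl fun j _ => ?_
      congr 1
      ring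
    rw [h8, h6, sub_self]
  rw [h1, h2, h3, h7, smul_neg, Finset.smul_sum, sub_neg_eq_add, sub_eq_add_neg]
  congr 1
  rw [← Finset.sum_neg_distrib, ← Finset.sum_add_distrib]
  refine Finset.sum_congr rfl fun i _ => ?_
  rw [smul_smul, ← neg_smul, ← add_smul]
  congr 1
  ring

end Pool.Agent.X98.SL
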