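import Pool.Agent.X98.SL.Lin
import Pool.Agent.X98.SL.ZC

set_option autoImplicit false
set_option linter.unusedSectionVars false

/-!
# The Schlesinger equations in the ring of power series in `σ = s / T(x)` over `K[x]`
-/

namespace Pool.Agent.X98.SL

open Pool.Agent.X98.KZ Pool.Agent.X98.SC

section emb

variable {K : Type*} [CommRing K]

/-- A power series in `s`. -/
noncomputable def emb (T : Polynomial K) : PowerSeries K →+* PowerSeries (Polynomial K) :=
  (PowerSeries.rescale T).comp (PowerSeries.map Polynomial.C)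

lemma coeff_emb (T : Polynomial K) (f : PowerSeries K) (n : ℕ) :
    PowerSeries.coeff n (emb T f) = T ^ n * Polynomial.C (PowerSeries.coeff n f) := by
  rw [emb, RingHom.comp_apply, PowerSeries.coeff_rescale, PowerSeries.coeff_map]

lemma dx_emb (T : Polynomial K) (f : PowerSeries K) : dx (pd K) T (emb T f) = 0 := by
  ext1 n
  rw [coeff_dx, coeff_emb, pd_apply, pd_apply, Polynomial.derivative_mul, Polynomial.derivative_C,
    mul_zero, add_zero, Polynomial.derivative_pow, map_zero]
  rcases n with _ | n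
  · simp
  · rw [Nat.add_sub_cancel, map_natCast]
    ring

lemma ds_emb (T : Polynomial K) (f : PowerSeries K) :
    ds (emb T f) = PowerSeries.C T * emb T (PowerSeries.derivative K f) := by
  ext1 n
  rw [coeff_ds, PowerSeries.coeff_C_mul, coeff_emb, coeff_emb, PowerSeries.coeff_derivative]
  simp only [map_mul, map_add, map_natCast, map_one]
  ring

lemma emb_C (T : Polynomial K) (a : K) :
    emb T (PowerSeries.C a) = PowerSeries.C (Polynomial.C a) := by
  ext1 n
  rw [coeff_emb, PowerSeries.coeff_C, PowerSeries.coeff_C]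
  split_ifs with h
  · rw [h]; simp
  · simp

lemma emb_X (T : Polynomial K) :
    emb T (PowerSeries.X) = PowerSeries.C T * PowerSeries.X := by
  ext1 n
  rw [coeff_emb, PowerSeries.coeff_X, PowerSeries.coeff_C_mul, PowerSeries.coeff_X]
  split_ifs with h
  · rw [h]; simp
  · simp

variable {ι : Type*} [Fintype ι] [DecidableEq ι]

/-- The position `a_i = z_i + c_i s` of the `i`-th pole. -/
noncomputable def pos (z c : ι → K) (i : ι) : PowerSeries K :=
  PowerSeries.C (z i) + PowerSeries.C (c i) * PowerSeries.X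

/-- `x - a_i`. -/
noncomputable def uu (z c : ι → K) (i : ι) : PowerSeries (Polynomial K) :=
  PowerSeries.C Polynomial.X - emb (TT z) (pos z c i)

/-- `T / (x - a_i)`. -/
noncomputable def ee (z c : ι → K) (i : ι) : PowerSeries (Polynomial K) :=
  PowerSeries.mk fun n => Polynomial.C (c i) ^ n * Tc z i ^ (n + 1)

lemma coeff_ee (z c : ι → K) (i : ι) (n : ℕ) : PowerSeries.coeff n (ee z c i) =
    Polynomial.C (c i) ^ n * Tc z i ^ (n + 1) := by
  rw [ee, PowerSeries.coeff_mk]

lemma TT_eq (z : ι → K) (i : ι) : (Polynomial.X - Polynomial.C (z i)) * Tc z i = TT z := by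
  rw [TT, Tc]
  exact Finset.mul_prod_erase Finset.univ (fun l => Polynomial.X - Polynomial.C (z l))
    (Finset.mem_univ i)

lemma uu_eq (z c : ι → K) (i : ι) : uu z c i =
    PowerSeries.C (Polynomial.X - Polynomial.C (z i)) -
      PowerSeries.C (Polynomial.C (c i) * TT z) * PowerSeries.X := by
  rw [uu, pos, map_add, map_mul, emb_C, emb_C, emb_X, map_sub, map_mul]
  ring

lemma uu_ee (z c : ι → K) (i : ι) : uu z c i * ee z c i = PowerSeries.C (TT z) := by
  ext1 n
  rw [uu_eq, sub_mul, mul_assoc, map_sub, PowerSeries.coeff_C_mul, PowerSeries.coeff_C_mul,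
    PowerSeries.coeff_C]
  rcases n with _ | n
  · rw [PowerSeries.coeff_zero_X_mul, coeff_ee]
    simp only [pow_zero, one_mul, zero_add, pow_one, mul_zero, sub_zero, if_true]
    exact TT_eq z i
  · rw [PowerSeries.coeff_succ_X_mul, coeff_ee, coeff_ee,
      if_neg (Nat.succ_ne_zero n), ← TT_eq z i]
    ring

lemma ds_uu (z c : ι → K) (i : ι) :
    ds (uu z c i) = -PowerSeries.C (Polynomial.C (c i) * TT z) := by
  rw [uu_eq, map_sub, ds_C, der_leib, ds_C, ds_X, mul_zero, add_zero, mul_one, zero_sub]

lemma dx_uu (z c : ι → K) (i : ι) : dx (pd K) (TT z) (uu z c i) = PowerSeries.C (TT z) := by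
  rw [uu, map_sub, dx_emb, dx_C, pd_apply, Polynomial.derivative_X, mul_one, sub_zero]

end emb

variable {F : Type*} [Field F] {ι : Type*} [Fintype ι] [DecidableEq ι]
  {r : Type*} [Fintype r] [DecidableEq r]

lemma uu_ne (z c : ι → F) (i : ι) : uu z c i ≠ 0 := by
  intro h
  have h1 := congrArg (PowerSeries.coeff 0) h
  rw [uu_eq, map_sub, PowerSeries.coeff_C, if_pos rfl, PowerSeries.coeff_C_mul,
    PowerSeries.coeff_zero_X, mul_zero, sub_zero, map_zero] at h1
  exact Polynomial.X_sub_C_ne_zero _ h1

lemma ds_ee (z c : ι → F) (i : ι) :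
    ds (ee z c i) = PowerSeries.C (Polynomial.C (c i)) * ee z c i ^ 2 := by
  have h1 := congrArg ds (uu_ee z c i)
  rw [der_leib, ds_C, ds_uu] at h1
  refine mul_left_cancel₀ (uu_ne z c i) ?_
  have h2 := uu_ee z c i
  rw [map_mul] at h1
  linear_combination h1 + (PowerSeries.C (Polynomial.C (c i)) * ee z c i) * (-1) * h2

lemma dx_ee (z c : ι → F) (i : ι) :
    dx (pd F) (TT z) (ee z c i) =
      (PowerSeries.C (Polynomial.derivative (TT z)) - ee z c i) * ee z c i := by
  have h1 := congrArg (dx (pd F) (TT z)) (uu_ee z c i)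
  rw [der_leib, dx_C, dx_uu, pd_apply] at h1
  refine mul_left_cancel₀ (uu_ne z c i) ?_
  have h2 := uu_ee z c i
  rw [map_mul] at h1
  linear_combination h1 + (ee z c i - PowerSeries.C (Polynomial.derivative (TT z))) * h2

lemma ee_mul (z c : ι → F) (i j : ι) :
    ee z c i * ee z c j * emb (TT z) (pos z c i - pos z c j) =
      PowerSeries.C (TT z) * (ee z c i - ee z c j) := by
  have h1 := uu_ee z c i
  have h2 := uu_ee z c j
  have h3 : emb (TT z) (pos z c i - pos z c j) = uu z c j - uu z c i := by
    rw [uu, uu, map_sub]; ring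
  rw [h3]
  refine mul_left_cancel₀ (mul_ne_zero (uu_ne z c i) (uu_ne z c j)) ?_
  linear_combination (ee z c j * uu z c j * (uu z c j - uu z c i) - PowerSeries.C (TT z) * uu z c j) * h1 +
    (PowerSeries.C (TT z) * (uu z c j - uu z c i) + PowerSeries.C (TT z) * uu z c i) * h2

/-- The Schlesinger equations along the line `a_i = z_i + c_i s` (the term `j = i` is zero). -/
def Schl (z c : ι → F) (A : ι → Matrix r r (PowerSeries F)) : Prop :=
  ∀ i, (A i).map (PowerSeries.derivative F) = -∑ j, (PowerSeries.C (c i - c j) *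
    (pos z c i - pos z c j)⁻¹) • (A i * A j - A j * A i)

lemma sum_map_hom {S S' : Type*} [CommRing S] [CommRing S'] (φ : S →+* S') {α : Type*}
    (s : Finset α) (f : α → Matrix r r S) : (∑ j ∈ s, f j).map φ = ∑ j ∈ s, (f j).map φ := by
  classical
  induction s using Finset.induction_on with
  | empty => ext1 i j; simp
  | insert i s hi ih =>
    rw [Finset.sum_insert hi, Finset.sum_insert hi, ← ih]
    exact Matrix.map_add _ (map_add φ) _ _

lemma smul_map_hom {S S' : Type*} [CommRing S] [CommRing S'] (φ : S →+* S') (a : S)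
    (M : Matrix r r S) : (a • M).map φ = φ a • M.map φ := by
  ext1 i j
  simp

lemma sub_map_hom {S S' : Type*} [CommRing S] [CommRing S'] (φ : S →+* S')
    (M N : Matrix r r S) : (M - N).map φ = M.map φ - N.map φ := by
  ext1 i j
  simp

lemma neg_map_hom {S S' : Type*} [CommRing S] [CommRing S'] (φ : S →+* S')
    (M : Matrix r r S) : (-M).map φ = -M.map φ := by
  ext1 i j
  simp

lemma ds_mat_emb (T : Polynomial F) (M : Matrix r r (PowerSeries F)) :
    (M.map (emb T)).map ds = PowerSeries.C T • (M.map (PowerSeries.derivative F)).map (emb T) := by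
  ext1 i j
  simp only [Matrix.map_apply, Matrix.smul_apply]
  rw [ds_emb, smul_eq_mul]

/-- Combination with scalars. -/
def lc {S : Type*} [CommRing S] (e : ι → S) (B : ι → Matrix r r S) : Matrix r r S :=
  ∑ i, e i • B i

/-- `T A`, `A = ∑ A_i / (x - a_i)`. -/
noncomputable def AA (z c : ι → F) (A : ι → Matrix r r (PowerSeries F)) :
    Matrix r r (PowerSeries (Polynomial F)) :=
  lc (ee z c) (fun i => (A i).map (emb (TT z)))

/-- `T B`, `B = -∑ c_i A_i / (x - a_i)`. -/
noncomputable def BB (z c : ι → F) (A : ι → Matrix r r (PowerSeries F)) :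
    Matrix r r (PowerSeries (Polynomial F)) :=
  -lc (fun i => PowerSeries.C (Polynomial.C (c i)) * ee z c i) (fun i => (A i).map (emb (TT z)))

lemma hBs (z c : ι → F) (A : ι → Matrix r r (PowerSeries F)) (hA : Schl z c A) (i : ι) :
    ((A i).map (emb (TT z))).map ds = -∑ j, (PowerSeries.C (TT z) *
      ((PowerSeries.C (Polynomial.C (c i)) - PowerSeries.C (Polynomial.C (c j))) *
        emb (TT z) (pos z c i - pos z c j)⁻¹)) • ((A i).map (emb (TT z)) * (A j).map (emb (TT z)) -
          (A j).map (emb (TT z)) * (A i).map (emb (TT z))) := by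
  rw [ds_mat_emb, hA i, neg_map_hom, sum_map_hom, smul_neg, Finset.smul_sum]
  congr 1
  refine Finset.sum_congr rfl fun j _ => ?_
  rw [smul_map_hom, sub_map_hom, Matrix.map_mul, Matrix.map_mul, map_mul, emb_C, smul_smul]
  simp only [map_sub]

/-- The zero curvature equation. -/
theorem zero_curv (z c : ι → F) (hz : ∀ i j, i ≠ j → z i ≠ z j)
    (A : ι → Matrix r r (PowerSeries F)) (hA : Schl z c A) :
    (AA z c A).map ds = (BB z c A).map (dx (pd F) (TT z)) -
      PowerSeries.C (pd F (TT z)) • BB z c A +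
      (BB z c A * AA z c A - AA z c A * BB z c A) := by
  refine zero_curv_abs ds (dx (pd F) (TT z)) (PowerSeries.C (TT z))
    (PowerSeries.C (pd F (TT z))) (ee z c) (fun i => PowerSeries.C (Polynomial.C (c i)))
    (fun i => (A i).map (emb (TT z))) (fun i j => emb (TT z) (pos z c i - pos z c j)⁻¹)
    (fun i j => emb (TT z) (pos z c i - pos z c j)) ?_ ?_ (ee_mul z c) (ds_ee z c) (dx_ee z c)
    ?_ ?_ (hBs z c A hA)
  · intro i j hij
    rw [← map_mul, PowerSeries.inv_mul_cancel, map_one]
    rw [pos, pos]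
    simp only [map_sub, map_add, map_mul, PowerSeries.constantCoeff_C,
      PowerSeries.constantCoeff_X, mul_zero, add_zero]
    exact sub_ne_zero.mpr (hz i j hij)
  · intro i j
    rw [← map_neg, neg_sub]
  · intro i
    rw [dx_C, pd_apply, Polynomial.derivative_C, mul_zero, map_zero]
  · intro i
    ext1 a b
    simp only [Matrix.map_apply]
    rw [dx_emb, Matrix.zero_apply]

end Pool.Agent.X98.SL
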