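import Pool.Agent.X98.SL.Gen

set_option autoImplicit false
set_option linter.unusedSectionVars false

/-!
# Integrality of a polynomial from congruences modulo powers of `x - z_i`
-/

namespace Pool.Agent.X98.SL

open Polynomial Pool.Agent.X98.SC

variable {O F : Type*} [CommRing O] [Field F] (φ : O →+* F) {ι : Type*} [Fintype ι] [DecidableEq ι]

lemma TT_monic {R : Type*} [CommRing R] (z : ι → R) : (TT z).Monic :=
  monic_prod_of_monic _ _ fun i _ => monic_X_sub_C (z i)

lemma TT_map {R R' : Type*} [CommRing R] [CommRing R'] (φ : R →+* R') (z : ι → R) :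
    (TT z).map φ = TT (fun i => φ (z i)) := by
  rw [TT, TT, Polynomial.map_prod]
  simp

lemma Tc_map {R R' : Type*} [CommRing R] [CommRing R'] (φ : R →+* R') (z : ι → R) (i : ι) :
    (KZ.Tc z i).map φ = KZ.Tc (fun i => φ (z i)) i := by
  rw [KZ.Tc, KZ.Tc, Polynomial.map_prod]
  simp

/-- The idempotents modulo powers. -/
lemma crt_exists (z : ι → O) (hz : ∀ i j, i ≠ j → IsUnit (z i - z j)) (k : ℕ) (b : ι → O[X]) :
    ∃ a : O[X], ∀ i, (X - C (z i)) ^ k ∣ a - b i := by
  have h1 : ∀ i, IsCoprime ((X - C (z i)) ^ k) (∏ j ∈ Finset.univ.erase i, (X - C (z j)) ^ k) := by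
    intro i
    refine IsCoprime.prod_right fun j hj => ?_
    rw [Finset.mem_erase] at hj
    refine IsCoprime.pow ?_
    exact isCoprime_X_sub_C_of_isUnit_sub (hz i j (Ne.symm hj.1))
  have h2 : ∀ i, ∃ v w : O[X], v * (X - C (z i)) ^ k +
      w * ∏ j ∈ Finset.univ.erase i, (X - C (z j)) ^ k = 1 := h1
  choose v w hvw using h2
  refine ⟨∑ i, b i * (w i * ∏ j ∈ Finset.univ.erase i, (X - C (z j)) ^ k), fun i => ?_⟩
  rw [← Finset.add_sum_erase _ _ (Finset.mem_univ i)]
  have h3 : b i * (w i * ∏ j ∈ Finset.univ.erase i, (X - C (z j)) ^ k) +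
      ∑ x ∈ Finset.univ.erase i, b x * (w x * ∏ j ∈ Finset.univ.erase x, (X - C (z j)) ^ k) - b i =
      (-b i * v i) * (X - C (z i)) ^ k +
      ∑ x ∈ Finset.univ.erase i, b x * (w x * ∏ j ∈ Finset.univ.erase x, (X - C (z j)) ^ k) := by
    linear_combination b i * hvw i
  rw [h3]
  refine dvd_add (Dvd.intro_left _ rfl) (Finset.dvd_sum fun x hx => ?_)
  rw [Finset.mem_erase] at hx
  refine Dvd.dvd.mul_left (Dvd.dvd.mul_left ?_ _) _
  exact Finset.dvd_prod_of_mem _ (Finset.mem_erase.mpr ⟨Ne.symm hx.1, Finset.mem_univ i⟩)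

/-- The integrality. -/
theorem crt_int (z : ι → O) (hz : ∀ i j, i ≠ j → IsUnit (z i - z j))
    (k : ℕ) (a : F[X]) (hdeg : a.degree < ((k * Fintype.card ι : ℕ) : WithBot ℕ))
    (h : ∀ i, ∃ b : O[X], (X - C (φ (z i))) ^ k ∣ a - b.map φ) :
    ∃ a' : O[X], a'.map φ = a := by
  choose b hb using h
  obtain ⟨a0, ha0⟩ := crt_exists z hz k b
  have h1 : ∀ i, (X - C (φ (z i))) ^ k ∣ a - a0.map φ := by
    intro i
    have h2 := Polynomial.map_dvd φ (ha0 i)
    rw [Polynomial.map_pow, Polynomial.map_sub, Polynomial.map_sub, map_X, map_C] at h2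
    have h3 := dvd_sub (hb i) h2
    have h4 : a - (b i).map φ - (a0.map φ - (b i).map φ) = a - a0.map φ := by ring
    rwa [h4] at h3
  have hprod : ∏ i, (X - C (φ (z i))) ^ k = (TT z).map φ ^ k := by
    rw [TT_map, TT, Finset.prod_pow]
  have h2 : (TT z).map φ ^ k ∣ a - a0.map φ := by
    rw [← hprod]
    refine Finset.prod_dvd_of_coprime ?_ fun i _ => h1 i
    intro i _ j _ hij
    refine IsCoprime.pow ?_
    refine isCoprime_X_sub_C_of_isUnit_sub ?_
    rw [← map_sub]
    exact (hz i j hij).map φ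
  have hmon : (((TT z).map φ) ^ k).Monic := ((TT_monic z).map φ).pow k
  have hdeg2 : (((TT z).map φ) ^ k).degree = ((k * Fintype.card ι : ℕ) : WithBot ℕ) := by
    have : Nontrivial O := φ.domain_nontrivial
    rw [degree_eq_natDegree hmon.ne_zero, ((TT_monic z).map φ).natDegree_pow,
      (TT_monic z).natDegree_map, TT, natDegree_prod_of_monic _ _ fun i _ => monic_X_sub_C (z i)]
    simp
  refine ⟨a0 %ₘ (TT z) ^ k, ?_⟩
  rw [map_modByMonic φ ((TT_monic z).pow k), Polynomial.map_pow,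
    ← modByMonic_eq_of_dvd_sub hmon h2, (modByMonic_eq_self_iff hmon).mpr (by rw [hdeg2]; exact hdeg)]

/-- Division by a monic polynomial. -/
lemma monic_cancel {T : O[X]} (hT : T.Monic) (a : F[X]) (b : O[X])
    (h : T.map φ * a = b.map φ) : ∃ a' : O[X], a'.map φ = a := by
  refine ⟨b /ₘ T, ?_⟩
  rw [map_divByMonic φ hT, ← h, mul_divByMonic_cancel_left _ (hT.map φ)]

end Pool.Agent.X98.SL
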