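import Pool.Agent.X98.SL.Int

set_option autoImplicit false
set_option linter.unusedSectionVars false

/-!
# Integrality of isomonodromic deformations
-/

namespace Pool.Agent.X98.SL

open Pool.Agent.X98.KZ Pool.Agent.X98.SC

variable {F : Type*} [Field F] [CharZero F] {ι : Type*} [Fintype ι] [DecidableEq ι]
  {r : Type*} [Fintype r] [DecidableEq r]

/-- `Y(x) Y(x - c_i s)⁻¹` for a fundamental matrix `Y` of the initial system. -/
noncomputable def UU (z c : ι → F) (A0 : ι → Matrix r r F) (i : ι) :
    Matrix r r (PowerSeries (Polynomial F)) :=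
  mkm fun k => Polynomial.C (c i ^ k * ((-1) ^ k * ((k.factorial : ℕ) : F)⁻¹)) • curv A0 z k

lemma curv_succ (z : ι → F) (A0 : ι → Matrix r r F) (k : ℕ) (a b : r) :
    curv A0 z (k + 1) a b = TT z * Polynomial.derivative (curv A0 z k a b) -
      (k : Polynomial F) * Polynomial.derivative (TT z) * curv A0 z k a b -
      (NN A0 z * curv A0 z k) a b := rfl

lemma UU_eq (z c : ι → F) (A0 : ι → Matrix r r F) (i : ι) :
    (UU z c A0 i).map ds + PowerSeries.C (Polynomial.C (c i)) •
      (UU z c A0 i).map (dx (pd F) (TT z)) =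
    PowerSeries.C (Polynomial.C (c i)) • ((NN A0 z).map (PowerSeries.C :
      Polynomial F →+* PowerSeries (Polynomial F)) * UU z c A0 i) := by
  refine ext_cm fun k => ?_
  rw [cm_add, cm_ds, cm_smul_C, cm_dx, cm_smul_C, cm_Cmul, UU, cm_mkm, cm_mkm]
  set a : ℕ → F := fun k => c i ^ k * ((-1) ^ k * ((k.factorial : ℕ) : F)⁻¹) with ha
  have h1 : ((k : F) + 1) * a (k + 1) = -(c i * a k) := by
    simp only [ha]
    rw [Nat.factorial_succ]
    push_cast
    have h2 : ((k : F) + 1) ≠ 0 := by exact_mod_cast Nat.succ_ne_zero k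
    have h3 : ((k.factorial : ℕ) : F) ≠ 0 := by exact_mod_cast k.factorial_ne_zero
    rw [mul_inv]
    field_simp
    ring
  have h2 : ((k : Polynomial F) + 1) * Polynomial.C (a (k + 1)) =
      -(Polynomial.C (c i) * Polynomial.C (a k)) := by
    have h3 := congrArg (Polynomial.C : F →+* Polynomial F) h1
    simp only [map_mul, map_add, map_natCast, map_one, map_neg] at h3
    exact h3
  ext1 x y
  simp only [Matrix.add_apply, Matrix.smul_apply, Matrix.sub_apply, Matrix.map_apply, smul_eq_mul,
    pd_apply]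
  change ((k : Polynomial F) + 1) * (Polynomial.C (a (k + 1)) * curv A0 z (k + 1) x y) +
    Polynomial.C (c i) * (TT z * Polynomial.derivative (Polynomial.C (a k) * curv A0 z k x y) -
      (k : Polynomial F) * Polynomial.derivative (TT z) * (Polynomial.C (a k) * curv A0 z k x y)) =
    Polynomial.C (c i) * (NN A0 z * (Polynomial.C (a k) • curv A0 z k)) x y
  rw [mul_smul_comm, Matrix.smul_apply, smul_eq_mul, Polynomial.derivative_C_mul, curv_succ]
  linear_combination (TT z * Polynomial.derivative (curv A0 z k x y) -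
      (k : Polynomial F) * Polynomial.derivative (TT z) * curv A0 z k x y -
      (NN A0 z * curv A0 z k) x y) * h2

lemma cm_zero_UU (z c : ι → F) (A0 : ι → Matrix r r F) (i : ι) : cm 0 (UU z c A0 i) = 1 := by
  rw [UU, cm_mkm]
  simp [curv]

lemma cm_zero_AA (z c : ι → F) (A : ι → Matrix r r (PowerSeries F)) :
    cm 0 (AA z c A) = NN (fun i => (A i).map (PowerSeries.constantCoeff (R := F))) z := by
  ext1 a b
  rw [AA, lc, cm, Matrix.map_apply, Matrix.sum_apply, map_sum, NN, Matrix.sum_apply]
  refine Finset.sum_congr rfl fun i _ => ?_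
  rw [Matrix.smul_apply, Matrix.map_apply, smul_eq_mul, PowerSeries.coeff_mul]
  have h2 : Finset.HasAntidiagonal.antidiagonal 0 = {((0 : ℕ), (0 : ℕ))} := rfl
  rw [h2, Finset.sum_singleton, coeff_ee, coeff_emb]
  simp

/-- The gauge transformation for the Schlesinger equations. -/
lemma gauge_P (z c : ι → F) (hz : ∀ i j, i ≠ j → z i ≠ z j)
    (A : ι → Matrix r r (PowerSeries F)) (hA : Schl z c A) :
    (sol (BB z c A)).map (dx (pd F) (TT z)) = AA z c A * sol (BB z c A) -
      sol (BB z c A) * (NN (fun i => (A i).map (PowerSeries.constantCoeff (R := F))) z).map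
        (PowerSeries.C : Polynomial F →+* PowerSeries (Polynomial F)) := by
  have h := gauge (pd F) (TT z) (AA z c A) (BB z c A) (zero_curv z c hz A hA)
  rwa [cm_zero_AA] at h

/-- Regularity of the transformed solution at `z_i`. -/
lemma reg_P (z c : ι → F) (hz : ∀ i j, i ≠ j → z i ≠ z j)
    (A : ι → Matrix r r (PowerSeries F)) (hA : Schl z c A) (i : ι) (k : ℕ) :
    MD ((Polynomial.X - Polynomial.C (z i)) ^ k) (cm k (sol (BB z c A) *
      UU z c (fun i => (A i).map (PowerSeries.constantCoeff (R := F))) i)) := by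
  set A0 : ι → Matrix r r F := fun i => (A i).map (PowerSeries.constantCoeff (R := F)) with hA0
  refine reg (pd F) (TT z) (t := Tc z i) (TT_eq z i).symm ?_ (Polynomial.C (c i))
    (BB z c A + PowerSeries.C (Polynomial.C (c i)) • AA z c A) _ (reg_term z c A i)
    (prod_eq (pd F) (TT z) (Polynomial.C (c i)) (AA z c A) (BB z c A) (sol (BB z c A))
      (UU z c A0 i) ((NN A0 z).map (PowerSeries.C :
        Polynomial F →+* PowerSeries (Polynomial F))) (sol_eq _) (gauge_P z c hz A hA)
      (UU_eq z c A0 i)) ?_ k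
  · rw [pd_apply]
    simp
  · have h2 : Finset.HasAntidiagonal.antidiagonal 0 = {((0 : ℕ), (0 : ℕ))} := rfl
    rw [cm_mul, h2, Finset.sum_singleton, cm_zero_sol, cm_zero_UU, mul_one]

variable {O : Type*} [CommRing O] (φ : O →+* F)

lemma curv_map (z : ι → O) (A0 : ι → Matrix r r O) (m : ℕ) :
    (curv A0 z m).map (Polynomial.mapRingHom φ) =
      curv (fun i => (A0 i).map φ) (fun i => φ (z i)) m := by
  rw [curv_eq, IF_map, curv_eq, TT_map, Matrix.map_one _ (map_zero _) (map_one _)]
  congr 1
  rw [NN, NN, sum_map_hom]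
  refine Finset.sum_congr rfl fun i _ => ?_
  rw [smul_map_hom, Polynomial.coe_mapRingHom, Tc_map]
  congr 1
  ext1 a b
  simp

lemma UU_WI {p : ℕ} (hp : p.Prime) (hunit : ∀ m : ℕ, ¬ p ∣ m → IsUnit (m : O)) (z c : ι → O)
    (A0 : ι → Matrix r r O) (E : Matrix r r (Polynomial O))
    (hE : curv A0 z p = (p : Polynomial O) • E) (i : ι) :
    WI (Polynomial.mapRingHom φ) p
      (UU (fun i => φ (z i)) (fun i => φ (c i)) (fun i => (A0 i).map φ) i) := by
  intro k
  rw [UU, cm_mkm, ← curv_map]
  obtain ⟨m, hm, hk⟩ := factorial_eq hp k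
  obtain ⟨v, hv⟩ := (hunit m hm).exists_left_inv
  rw [curv_eq] at hE
  obtain ⟨E', hE'⟩ := IF_pow hp (TT z) (TT_monic z) (NN A0 z) E hE k
  rw [← curv_eq] at hE'
  have hv' : φ v * (m : F) = 1 := by
    rw [← map_natCast φ, ← map_mul, hv, map_one]
  have hk' : ((k.factorial : ℕ) : F) = (p : F) ^ (k / p) * (wt p k : F) * (m : F) := by
    rw [hk]; push_cast; ring
  have hf : ((k.factorial : ℕ) : F) ≠ 0 := by exact_mod_cast k.factorial_ne_zero
  have hscal : (wt p k : F) * (φ (c i) ^ k * ((-1) ^ k * ((k.factorial : ℕ) : F)⁻¹)) *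
      (p : F) ^ (k / p) = φ (c i ^ k * (-1) ^ k * v) := by
    rw [map_mul, map_mul, map_pow, map_pow, map_neg, map_one]
    have h1 : (wt p k : F) * ((k.factorial : ℕ) : F)⁻¹ * (p : F) ^ (k / p) = φ v := by
      have h2 : ((k.factorial : ℕ) : F) * φ v = (p : F) ^ (k / p) * (wt p k : F) := by
        rw [hk']
        linear_combination (p : F) ^ (k / p) * (wt p k : F) * hv'
      field_simp
      linear_combination -h2
    rw [← h1]
    ring
  refine ⟨Polynomial.C (c i ^ k * (-1) ^ k * v) • E', ?_⟩
  rw [hE']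
  ext1 a b
  have h3 : ((wt p k : ℕ) : Polynomial F) = Polynomial.C ((wt p k : ℕ) : F) := by simp
  have h4 : ((p ^ (k / p) : ℕ) : Polynomial F) = Polynomial.C ((p : F) ^ (k / p)) := by simp
  simp only [Matrix.map_apply, Matrix.smul_apply, smul_eq_mul, map_mul, map_natCast,
    Polynomial.coe_mapRingHom, Polynomial.map_mul, Polynomial.map_C, Polynomial.map_natCast]
  have h5 := congrArg (Polynomial.C : F →+* Polynomial F) hscal
  simp only [map_mul] at h5
  rw [h3, h4]
  linear_combination (-(Polynomial.map φ (E' a b))) * h5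

section main

variable {p : ℕ} (hp : p.Prime) (hunit : ∀ m : ℕ, ¬ p ∣ m → IsUnit (m : O)) (z c : ι → O)
    (hz : ∀ i j, i ≠ j → IsUnit (z i - z j))
    (A0 : ι → Matrix r r O) (E : Matrix r r (Polynomial O))
    (hE : curv A0 z p = (p : Polynomial O) • E)
    (A : ι → Matrix r r (PowerSeries F))
    (hA0 : ∀ i, (A i).map (PowerSeries.constantCoeff (R := F)) = (A0 i).map φ)
    (hA : Schl (fun i => φ (z i)) (fun i => φ (c i)) A)

include hz in
lemma ne_of_unit : ∀ i j, i ≠ j → φ (z i) ≠ φ (z j) := by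
  intro i j hij h
  have h1 := (hz i j hij).map φ
  rw [map_sub, h, sub_self] at h1
  exact not_isUnit_zero h1

include hp hunit hz hE hA0 hA in
lemma P_WI : WI (Polynomial.mapRingHom φ) p (sol (BB (fun i => φ (z i)) (fun i => φ (c i)) A)) := by
  have h0 : (fun i => (A i).map (PowerSeries.constantCoeff (R := F))) =
      fun i => (A0 i).map φ := funext hA0
  refine P_int φ z hz _ (cm_zero_sol _) (P_deg _ _ (BB_deg _ _ A) (sol_eq _) (cm_zero_sol _))
    (UU (fun i => φ (z i)) (fun i => φ (c i)) (fun i => (A0 i).map φ)) (cm_zero_UU _ _ _)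
    (UU_WI φ hp hunit z c A0 E hE) fun i k => ?_
  have h := reg_P (fun i => φ (z i)) (fun i => φ (c i)) (ne_of_unit φ z hz) A hA i k
  rwa [h0] at h

lemma sol_inv {L : Type*} [CommRing L] [Algebra ℚ L] (G : Matrix r r (PowerSeries L)) :
    sol G * (sol G)⁻¹ = 1 :=
  Matrix.mul_nonsing_inv _ (inv_of_const (by rw [← cm_zero_eq]; exact cm_zero_sol G))

include hp hunit hz hE hA0 hA in
lemma AA_WI : WI (Polynomial.mapRingHom φ) p (AA (fun i => φ (z i)) (fun i => φ (c i)) A) := by
  set zF : ι → F := fun i => φ (z i) with hzF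
  set cF : ι → F := fun i => φ (c i) with hcF
  set P := sol (BB zF cF A) with hP
  have hPW : WI (Polynomial.mapRingHom φ) p P := P_WI φ hp hunit z c hz A0 E hE A hA0 hA
  have h0 : (fun i => (A i).map (PowerSeries.constantCoeff (R := F))) =
      fun i => (A0 i).map φ := funext hA0
  have h1 := gauge_P zF cF (ne_of_unit φ z hz) A hA
  rw [h0] at h1
  have h2 : AA zF cF A = (P.map (dx (pd F) (TT zF)) + P * (NN (fun i => (A0 i).map φ) zF).map
        (PowerSeries.C : Polynomial F →+* PowerSeries (Polynomial F))) * P⁻¹ := by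
    rw [hP, h1, sub_add_cancel, mul_assoc, sol_inv, mul_one]
  rw [h2]
  have hN : IM (Polynomial.mapRingHom φ) (NN (fun i => (A0 i).map φ) zF) := by
    refine ⟨NN A0 z, ?_⟩
    rw [NN, NN, sum_map_hom]
    refine Finset.sum_congr rfl fun i _ => ?_
    rw [smul_map_hom, Polynomial.coe_mapRingHom, Tc_map]
    congr 1
    ext1 a b
    simp
  refine ((hPW.dx (δ := pd O) (T := TT z) ?_ ?_).add (hPW.mul (WI.C hN))).mul
    (hPW.inv (cm_zero_sol _) (sol_inv _))
  · rw [Polynomial.coe_mapRingHom, TT_map]
  · intro a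
    rw [Polynomial.coe_mapRingHom, pd_apply, pd_apply, Polynomial.derivative_map]

lemma cm_AA (zF cF : ι → F) (k : ℕ) (a b : r) : cm k (AA zF cF A) a b =
    ∑ i, TT zF ^ k * Tc zF i * Polynomial.C (cm k (A i) a b) +
    ∑ i, ∑ j ∈ Finset.range k, Polynomial.C (cF i) ^ (k - j) * Tc zF i ^ (k - j + 1) *
      TT zF ^ j * Polynomial.C (cm j (A i) a b) := by
  rw [AA, lc, cm, Matrix.map_apply, Matrix.sum_apply, map_sum, ← Finset.sum_add_distrib]
  refine Finset.sum_congr rfl fun i _ => ?_
  rw [Matrix.smul_apply, Matrix.map_apply, smul_eq_mul, mul_comm, PowerSeries.coeff_mul,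
    Finset.Nat.sum_antidiagonal_eq_sum_range_succ_mk, Finset.sum_range_succ, add_comm]
  simp only [coeff_emb, coeff_ee, cm, Matrix.map_apply]
  congr 1
  · rw [Nat.sub_self]
    ring
  · refine Finset.sum_congr rfl fun j _ => ?_
    ring

include hp hunit hz hE hA0 hA in
/-- Integrality of the coefficients of an isomonodromic deformation. -/
theorem main_int : ∀ k i, IM φ ((wt p k : F) • cm k (A i)) := by
  set zF : ι → F := fun i => φ (z i) with hzF
  set cF : ι → F := fun i => φ (c i) with hcF
  have hW : WI (Polynomial.mapRingHom φ) p (AA zF cF A) := AA_WI φ hp hunit z c hz A0 E hE A hA0 hA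
  intro k
  induction k using Nat.strong_induction_on with
  | _ k ih =>
    intro i
    obtain ⟨M, hM⟩ := hW k
    have h1 : ∀ l j, j < k → ∃ M' : Matrix r r O, M'.map φ = (wt p k : F) • cm j (A l) := by
      intro l j hj
      exact (ih j hj l).dvd (wt_mono hj.le)
    choose M1 hM1 using h1
    have h2 : ∀ a b, ∃ e : Polynomial O, e.map φ =
        ∑ l, Tc zF l * Polynomial.C ((wt p k : F) * cm k (A l) a b) := by
      intro a b
      refine monic_cancel φ ((TT_monic z).pow k) _ (M a b - ∑ l, ∑ j ∈ (Finset.range k).attach,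
        Polynomial.C (c l) ^ (k - j.1) * Tc z l ^ (k - j.1 + 1) * TT z ^ j.1 *
          Polynomial.C (M1 l j.1 (Finset.mem_range.mp j.2) a b)) ?_
      have h3 : (M a b).map φ = (wt p k : Polynomial F) * cm k (AA zF cF A) a b := by
        have h4 := congrFun (congrFun hM a) b
        rwa [Matrix.map_apply, Matrix.smul_apply, smul_eq_mul] at h4
      have hw : ((wt p k : ℕ) : Polynomial F) = Polynomial.C ((wt p k : ℕ) : F) := by simp
      have h5 : (∑ l, ∑ j ∈ (Finset.range k).attach,
        Polynomial.C (c l) ^ (k - j.1) * Tc z l ^ (k - j.1 + 1) * TT z ^ j.1 *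
          Polynomial.C (M1 l j.1 (Finset.mem_range.mp j.2) a b)).map φ =
          Polynomial.C ((wt p k : ℕ) : F) *
          ∑ i, ∑ j ∈ Finset.range k, Polynomial.C (cF i) ^ (k - j) * Tc zF i ^ (k - j + 1) *
            TT zF ^ j * Polynomial.C (cm j (A i) a b) := by
        rw [Polynomial.map_sum, Finset.mul_sum]
        refine Finset.sum_congr rfl fun l _ => ?_
        rw [Polynomial.map_sum, Finset.mul_sum, ← Finset.sum_attach (Finset.range k)]
        refine Finset.sum_congr rfl fun j _ => ?_
        have h6 : φ (M1 l j.1 (Finset.mem_range.mp j.2) a b) = (wt p k : F) * cm j.1 (A l) a b := by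
          have h7 := congrFun (congrFun (hM1 l j.1 (Finset.mem_range.mp j.2)) a) b
          rwa [Matrix.map_apply, Matrix.smul_apply, smul_eq_mul] at h7
        rw [Polynomial.map_mul, Polynomial.map_mul, Polynomial.map_mul, Polynomial.map_pow,
          Polynomial.map_pow, Polynomial.map_pow, Polynomial.map_C, Polynomial.map_C, Tc_map,
          TT_map, h6, map_mul]
        ring
      rw [Polynomial.map_sub, h3, h5, Polynomial.map_pow, TT_map, hw, cm_AA, mul_add,
        add_sub_cancel_right, Finset.mul_sum, Finset.mul_sum]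
      refine Finset.sum_congr rfl fun l _ => ?_
      rw [map_mul]
      ring
    choose e he using h2
    -- evaluation at `z_i`
    have h3 : ∀ a b, φ ((e a b).eval (z i)) =
        (Tc zF i).eval (zF i) * ((wt p k : F) * cm k (A i) a b) := by
      intro a b
      have h4 := congrArg (Polynomial.eval (zF i)) (he a b)
      rw [Polynomial.eval_map_apply, Polynomial.eval_finset_sum,
        Finset.sum_eq_single i] at h4
      · rw [h4, Polynomial.eval_mul, Polynomial.eval_C]
      · intro l _ hl
        rw [Polynomial.eval_mul]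
        have h5 : (Tc zF l).eval (zF i) = 0 := by
          rw [Tc, Polynomial.eval_prod]
          refine Finset.prod_eq_zero (Finset.mem_erase.mpr ⟨Ne.symm hl, Finset.mem_univ i⟩) ?_
          simp
        rw [h5, zero_mul]
      · intro h; exact absurd (Finset.mem_univ i) h
    have h4 : ∃ v : O, φ v * (Tc zF i).eval (zF i) = 1 := by
      have h5 : IsUnit ((Tc z i).eval (z i)) := by
        rw [Tc, Polynomial.eval_prod]
        refine IsUnit.prod_iff.mpr fun l hl => ?_
        rw [Polynomial.eval_sub, Polynomial.eval_X, Polynomial.eval_C]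
        exact hz i l (Ne.symm (Finset.mem_erase.mp hl).1)
      obtain ⟨v, hv⟩ := h5.exists_left_inv
      refine ⟨v, ?_⟩
      have h6 : (Tc zF i).eval (zF i) = φ ((Tc z i).eval (z i)) := by
        rw [hzF, ← Tc_map φ z i, Polynomial.eval_map_apply]
      rw [h6, ← map_mul, hv, map_one]
    obtain ⟨v, hv⟩ := h4
    refine ⟨Matrix.of fun a b => v * (e a b).eval (z i), ?_⟩
    ext1 a b
    rw [Matrix.map_apply, Matrix.smul_apply, Matrix.of_apply, map_mul, h3, ← mul_assoc, hv,
      one_mul, smul_eq_mul]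

end main

end Pool.Agent.X98.SL
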