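import Pool.Agent.X98.SC.Lift

set_option autoImplicit false
set_option linter.unusedSectionVars false
set_option linter.deprecated false

/-!
# Power series in `σ = s / T` over a differential ring: the gauge transformation
-/

namespace Pool.Agent.X98.SL

open Pool.Agent.X98.KZ Pool.Agent.X98.SC PowerSeries

/-- Derivations. -/
abbrev Der (L : Type*) [CommRing L] := Derivation ℤ L L

/-- Construction of derivations. -/
noncomputable def mkDer {L : Type*} [CommRing L] (f : L → L) (hadd : ∀ a b, f (a + b) = f a + f b)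
    (hmul : ∀ a b, f (a * b) = a * f b + b * f a) : Der L :=
  Derivation.mk' (AddMonoidHom.toIntLinearMap (AddMonoidHom.mk' f hadd)) hmul

lemma mkDer_apply {L : Type*} [CommRing L] (f : L → L) (hadd : ∀ a b, f (a + b) = f a + f b)
    (hmul : ∀ a b, f (a * b) = a * f b + b * f a) (a : L) : mkDer f hadd hmul a = f a := rfl

lemma der_one {S : Type*} [CommRing S] (D : Der S) : D 1 = 0 := D.map_one_eq_zero

lemma der_leib {S : Type*} [CommRing S] (D : Der S) (a b : S) : D (a * b) = a * D b + b * D a := by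
  rw [Derivation.leibniz, smul_eq_mul, smul_eq_mul]

lemma gm_mul {S : Type*} [CommRing S] {r : Type*} [Fintype r] [DecidableEq r] (D : Der S)
    (M N : Matrix r r S) : (M * N).map D = M.map D * N + M * N.map D := mat_leibniz D M N

lemma gm_smul {S : Type*} [CommRing S] {r : Type*} [Fintype r] [DecidableEq r] (D : Der S)
    (f : S) (N : Matrix r r S) : (f • N).map D = D f • N + f • N.map D := mat_smul D f N

variable {L : Type*} [CommRing L] (δ : Der L) (T : L)

/-- `T ∂_x` at constant `s`, where the variable of the power series is `σ = s / T`. -/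
noncomputable def dxf (f : L⟦X⟧) : L⟦X⟧ :=
  PowerSeries.mk fun n => T * δ (coeff n f) - (n : L) * δ T * coeff n f

lemma coeff_dxf (f : L⟦X⟧) (n : ℕ) :
    coeff n (dxf δ T f) = T * δ (coeff n f) - (n : L) * δ T * coeff n f := by
  rw [dxf, coeff_mk]

lemma dxf_add (f g : L⟦X⟧) : dxf δ T (f + g) = dxf δ T f + dxf δ T g := by
  ext1 n
  simp only [map_add, coeff_dxf]
  ring

lemma der_sum {α : Type*} (s : Finset α) (f : α → L) : δ (∑ i ∈ s, f i) = ∑ i ∈ s, δ (f i) :=
  map_sum δ f s

lemma dxf_mul (f g : L⟦X⟧) : dxf δ T (f * g) = f * dxf δ T g + g * dxf δ T f := by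
  ext1 n
  rw [coeff_dxf, map_add, coeff_mul, mul_comm g, coeff_mul,
    coeff_mul, der_sum, Finset.mul_sum, Finset.mul_sum,
    ← Finset.sum_sub_distrib, ← Finset.sum_add_distrib]
  refine Finset.sum_congr rfl fun ij hij => ?_
  rw [Finset.HasAntidiagonal.mem_antidiagonal] at hij
  rw [coeff_dxf, coeff_dxf, Derivation.leibniz, ← hij]
  simp only [smul_eq_mul]
  push_cast
  ring

/-- `T ∂_x` as a derivation. -/
noncomputable def dx : Der L⟦X⟧ := mkDer (dxf δ T) (dxf_add δ T) (dxf_mul δ T)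

lemma coeff_dx (f : L⟦X⟧) (n : ℕ) :
    coeff n (dx δ T f) = T * δ (coeff n f) - (n : L) * δ T * coeff n f :=
  coeff_dxf δ T f n

/-- `∂_σ`. -/
noncomputable def dsf (f : L⟦X⟧) : L⟦X⟧ := PowerSeries.mk fun n => coeff (n + 1) f * ((n : L) + 1)

lemma coeff_dsf (f : L⟦X⟧) (n : ℕ) : coeff n (dsf f) = coeff (n + 1) f * ((n : L) + 1) := by
  rw [dsf, coeff_mk]

lemma dsf_eq (f : L⟦X⟧) : dsf f = derivative L f := by
  ext1 n
  rw [coeff_dsf, coeff_derivative]

/-- `∂_σ = T ∂_s`. -/
noncomputable def ds : Der L⟦X⟧ :=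
  mkDer dsf (fun f g => by rw [dsf_eq, dsf_eq, dsf_eq, map_add]) (fun f g => by
      rw [dsf_eq, dsf_eq, dsf_eq, Derivation.leibniz, smul_eq_mul, smul_eq_mul])

lemma coeff_ds (f : L⟦X⟧) (n : ℕ) : coeff n (ds f) = coeff (n + 1) f * ((n : L) + 1) :=
  coeff_dsf f n

lemma der_nat (n : ℕ) : δ ((n : L) + 1) = 0 := by
  rw [← Nat.cast_succ]
  exact δ.map_natCast _

lemma dx_ds (f : L⟦X⟧) : dx δ T (ds f) = ds (dx δ T f) + C (δ T) * ds f := by
  ext1 n
  rw [coeff_dx, map_add, coeff_ds, coeff_ds, coeff_dx, coeff_C_mul, coeff_ds,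
    Derivation.leibniz, der_nat]
  simp only [smul_eq_mul, mul_zero, zero_add]
  push_cast
  ring

lemma ds_C (f : L) : ds (C f : L⟦X⟧) = 0 := by
  ext1 n
  rw [coeff_ds, coeff_C, if_neg (Nat.succ_ne_zero n), zero_mul, map_zero]

lemma ds_X : ds (X : L⟦X⟧) = 1 := by
  ext1 n
  rw [coeff_ds, coeff_X, coeff_one]
  rcases n with _ | n
  · simp
  · simp

lemma dx_C (f : L) : dx δ T (C f) = C (T * δ f) := by
  ext1 n
  rw [coeff_dx, coeff_C, coeff_C]
  split_ifs with h
  · rw [h]; simp
  · simp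

variable {r : Type*} [Fintype r] [DecidableEq r]

lemma cm_ds (m : ℕ) (Y : Matrix r r L⟦X⟧) : cm m (Y.map ds) = ((m : L) + 1) • cm (m + 1) Y := by
  ext1 a b
  simp only [cm, Matrix.map_apply, Matrix.smul_apply, smul_eq_mul, coeff_ds]
  ring

lemma cm_dx (m : ℕ) (Y : Matrix r r L⟦X⟧) : cm m (Y.map (dx δ T)) =
    T • (cm m Y).map δ - ((m : L) * δ T) • cm m Y := by
  ext1 a b
  simp only [cm, Matrix.map_apply, Matrix.smul_apply, Matrix.sub_apply, smul_eq_mul, coeff_dx]

lemma cm_smul_C (m : ℕ) (f : L) (Y : Matrix r r L⟦X⟧) : cm m (C f • Y) = f • cm m Y := by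
  ext1 a b
  simp only [cm, Matrix.map_apply, Matrix.smul_apply, smul_eq_mul, coeff_C_mul]

lemma cm_neg (m : ℕ) (Y : Matrix r r L⟦X⟧) : cm m (-Y) = -cm m Y := by
  ext1 a b
  simp [cm]

lemma cm_zero_mat (m : ℕ) : cm m (0 : Matrix r r L⟦X⟧) = 0 := by
  ext1 a b
  simp [cm]

lemma ext_cm {Y Z : Matrix r r L⟦X⟧} (h : ∀ m, cm m Y = cm m Z) : Y = Z := by
  ext a b n
  exact congrFun (congrFun (h n) a) b

lemma cm_one (m : ℕ) : cm m (1 : Matrix r r L⟦X⟧) = if m = 0 then 1 else 0 := by
  ext1 a b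
  rw [cm, Matrix.map_apply, Matrix.one_apply]
  split_ifs with h1 h2 h3
  · rw [h1, h2]; simp
  · rw [coeff_one, if_neg h2, Matrix.zero_apply]
  · rw [map_zero, Matrix.one_apply, if_neg h1]
  · rw [map_zero, Matrix.zero_apply]

/-- The matrix with given coefficients. -/
noncomputable def mkm (U : ℕ → Matrix r r L) : Matrix r r L⟦X⟧ :=
  Matrix.of fun i j => PowerSeries.mk fun m => U m i j

lemma cm_mkm (U : ℕ → Matrix r r L) (m : ℕ) : cm m (mkm U) = U m := by
  ext1 a b
  simp [cm, mkm]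

/-- `D` applied to the entries. -/
lemma dm_sub (D : Der L⟦X⟧) (M N : Matrix r r L⟦X⟧) :
    (M - N).map D = M.map D - N.map D := by
  ext1 i j
  simp only [Matrix.map_apply, Matrix.sub_apply, map_sub]

lemma dm_add (D : Der L⟦X⟧) (M N : Matrix r r L⟦X⟧) :
    (M + N).map D = M.map D + N.map D := by
  ext1 i j
  simp only [Matrix.map_apply, Matrix.add_apply, map_add]

lemma dm_neg (D : Der L⟦X⟧) (M : Matrix r r L⟦X⟧) :
    (-M).map D = -M.map D := by
  ext1 i j
  simp only [Matrix.map_apply, Matrix.neg_apply, map_neg]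

lemma dm_mul (D : Der L⟦X⟧) (M N : Matrix r r L⟦X⟧) :
    (M * N).map D = M.map D * N + M * N.map D := gm_mul D M N

lemma dm_smul (D : Der L⟦X⟧) (f : L⟦X⟧) (N : Matrix r r L⟦X⟧) :
    (f • N).map D = D f • N + f • N.map D := gm_smul D f N

lemma dm_sum (D : Der L⟦X⟧) {α : Type*} (s : Finset α)
    (f : α → Matrix r r L⟦X⟧) : (∑ j ∈ s, f j).map D = ∑ j ∈ s, (f j).map D := by
  classical
  induction s using Finset.induction_on with
  | empty => ext1 i j; simp
  | insert i s hi ih => rw [Finset.sum_insert hi, Finset.sum_insert hi, ← ih, dm_add]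

section rat

variable [Algebra ℚ L]

lemma nat_smul_cancel {m : ℕ} {M N : Matrix r r L} (h : ((m : L) + 1) • M = ((m : L) + 1) • N) :
    M = N := by
  have h1 : algebraMap ℚ L ((m : ℚ) + 1)⁻¹ * ((m : L) + 1) = 1 := by
    have h2 : ((m : L) + 1) = algebraMap ℚ L ((m : ℚ) + 1) := by simp
    rw [h2, ← map_mul, inv_mul_cancel₀ (by positivity), map_one]
  have h3 := congrArg (fun Y => (algebraMap ℚ L ((m : ℚ) + 1)⁻¹) • Y) h
  simp only [smul_smul, h1, one_smul] at h3
  exact h3

/-- Uniqueness. -/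
lemma unique_zero (G Y : Matrix r r L⟦X⟧) (h : Y.map ds = G * Y) (h0 : cm 0 Y = 0) : Y = 0 := by
  have h1 : ∀ m, cm m Y = 0 := by
    intro m
    induction m using Nat.strong_induction_on with
    | _ m ih =>
      rcases m with _ | m
      · exact h0
      · have h2 := congrArg (cm m) h
        rw [cm_ds, cm_mul, Finset.sum_eq_zero] at h2
        · apply nat_smul_cancel (m := m)
          rw [h2, smul_zero]
        · intro ij hij
          rw [Finset.HasAntidiagonal.mem_antidiagonal] at hij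
          rw [ih ij.2 (by omega), mul_zero]
  exact ext_cm fun m => by rw [h1, cm_zero_mat]

/-- The coefficients of the solution. -/
noncomputable def solc (G : Matrix r r L⟦X⟧) : ℕ → Matrix r r L
  | 0 => 1
  | m + 1 => (algebraMap ℚ L ((m : ℚ) + 1)⁻¹) •
      ∑ j : Fin (m + 1), cm (m - j) G * solc G j
  decreasing_by exact j.2

/-- The solution. -/
noncomputable def sol (G : Matrix r r L⟦X⟧) : Matrix r r L⟦X⟧ := mkm (solc G)

lemma cm_zero_sol (G : Matrix r r L⟦X⟧) : cm 0 (sol G) = 1 := by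
  rw [sol, cm_mkm, solc]

lemma sol_eq (G : Matrix r r L⟦X⟧) : (sol G).map ds = G * sol G := by
  refine ext_cm fun m => ?_
  rw [cm_ds, sol, cm_mkm, solc, smul_smul, cm_mul]
  have h1 : ((m : L) + 1) * algebraMap ℚ L ((m : ℚ) + 1)⁻¹ = 1 := by
    have h2 : ((m : L) + 1) = algebraMap ℚ L ((m : ℚ) + 1) := by simp
    rw [h2, ← map_mul, mul_inv_cancel₀ (by positivity), map_one]
  rw [h1, one_smul]
  rw [Finset.sum_fin_eq_sum_range (fun j : Fin (m + 1) => cm (m - j) G * solc G j)]
  rw [← Finset.sum_flip, Finset.Nat.sum_antidiagonal_eq_sum_range_succ_mk]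
  refine Finset.sum_congr rfl fun j hj => ?_
  rw [Finset.mem_range] at hj
  rw [dif_pos (by omega), cm_mkm]
  simp only
  congr 2
  omega

/-- The gauge transformation. -/
theorem gauge (A B : Matrix r r L⟦X⟧) (h : A.map ds = B.map (dx δ T) - C (δ T) • B +
      (B * A - A * B)) :
    (sol B).map (dx δ T) = A * sol B - sol B * (cm 0 A).map (C : L →+* L⟦X⟧) := by
  set P := sol B with hP
  set A0 : Matrix r r L⟦X⟧ := (cm 0 A).map (C : L →+* L⟦X⟧) with hA0
  have hPs : P.map ds = B * P := sol_eq B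
  have hA0s : A0.map ds = 0 := by
    ext1 i j
    simp only [hA0, Matrix.map_apply]
    rw [ds_C, Matrix.zero_apply]
  have hcomm : (P.map (dx δ T)).map ds = (P.map ds).map (dx δ T) - C (δ T) • P.map ds := by
    ext1 i j
    simp only [Matrix.map_apply, Matrix.sub_apply, Matrix.smul_apply, smul_eq_mul]
    rw [dx_ds]
    ring
  have h1 : P.map (dx δ T) - A * P + P * A0 = 0 := by
    refine unique_zero B _ ?_ ?_
    · rw [dm_add, dm_sub, dm_mul ds A P, dm_mul ds P A0, hcomm, hPs, hA0s,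
        dm_mul (dx δ T) B P, h]
      simp only [mul_zero, add_zero, mul_add, mul_sub, add_mul, sub_mul, smul_mul_assoc, mul_assoc]
      abel
    · rw [cm_add, cm_sub, cm_dx, cm_mul, cm_mul]
      have h0 : Finset.HasAntidiagonal.antidiagonal 0 = {((0 : ℕ), (0 : ℕ))} := rfl
      rw [h0, Finset.sum_singleton, Finset.sum_singleton]
      simp only
      rw [hP, cm_zero_sol]
      have h2 : cm 0 A0 = cm 0 A := by
        ext1 i j
        simp only [hA0, cm, Matrix.map_apply]
        simp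
      rw [h2, mul_one, one_mul]
      have h3 : (1 : Matrix r r L).map δ = 0 := by
        ext1 i j
        rw [Matrix.map_apply, Matrix.one_apply, Matrix.zero_apply]
        split_ifs <;> simp
      rw [h3]
      simp
  rw [← sub_eq_zero, ← h1]
  abel

end rat

end Pool.Agent.X98.SL
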