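import Pool.Agent.X98.SL.Gen

set_option autoImplicit false
set_option linter.unusedSectionVars false

/-!
# Weighted integrality
-/

namespace Pool.Agent.X98.SL

open Pool.Agent.X98.KZ Pool.Agent.X98.SC PowerSeries

/-- The weights `⌊k / p⌋!`. -/
def wt (p k : ℕ) : ℕ := (k / p).factorial

lemma wt_zero (p : ℕ) : wt p 0 = 1 := by simp [wt]

lemma wt_dvd {p a b k : ℕ} (h : a + b = k) : wt p a * wt p b ∣ wt p k := by
  rw [wt, wt, wt]
  refine (Nat.factorial_mul_factorial_dvd_factorial_add _ _).trans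
    (Nat.factorial_dvd_factorial ?_)
  rw [← h]
  exact Nat.add_div_le_add_div a b p

lemma wt_mono {p a k : ℕ} (h : a ≤ k) : wt p a ∣ wt p k :=
  Nat.factorial_dvd_factorial (Nat.div_le_div_right h)

lemma factorial_eq {p : ℕ} (hp : p.Prime) (k : ℕ) :
    ∃ m : ℕ, ¬ p ∣ m ∧ k.factorial = p ^ (k / p) * wt p k * m := by
  induction k with
  | zero => exact ⟨1, hp.one_lt.ne' ∘ Nat.dvd_one.mp, by simp [wt]⟩
  | succ k ih =>
    obtain ⟨m, hm, hk⟩ := ih
    by_cases hd : p ∣ k + 1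
    · have h1 : (k + 1) / p = k / p + 1 := by
        rw [Nat.succ_div, if_pos hd]
      refine ⟨m, hm, ?_⟩
      rw [wt] at hk ⊢
      rw [Nat.factorial_succ, hk, h1, Nat.factorial_succ, pow_succ]
      have h2 : k + 1 = p * (k / p + 1) := by
        rw [← h1, Nat.mul_div_cancel' hd]
      calc (k + 1) * (p ^ (k / p) * (k / p).factorial * m) =
          (p * (k / p + 1)) * (p ^ (k / p) * (k / p).factorial * m) := by rw [← h2]
        _ = _ := by ring
    · have h1 : (k + 1) / p = k / p := by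
        rw [Nat.succ_div, if_neg hd, add_zero]
      refine ⟨m * (k + 1), ?_, ?_⟩
      · intro h
        rcases hp.dvd_mul.mp h with h | h
        · exact hm h
        · exact hd h
      · rw [wt] at hk ⊢
        rw [Nat.factorial_succ, hk, h1]
        ring

variable {R R' : Type*} [CommRing R] [CommRing R'] (φ : R →+* R') {r : Type*} [Fintype r]
  [DecidableEq r]

/-- Matrices with entries in the image. -/
def IM (M : Matrix r r R') : Prop := ∃ M' : Matrix r r R, M'.map φ = M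

variable {φ}

lemma IM.mul {M N : Matrix r r R'} (hM : IM φ M) (hN : IM φ N) : IM φ (M * N) := by
  obtain ⟨M', rfl⟩ := hM
  obtain ⟨N', rfl⟩ := hN
  exact ⟨M' * N', Matrix.map_mul⟩

lemma IM.add {M N : Matrix r r R'} (hM : IM φ M) (hN : IM φ N) : IM φ (M + N) := by
  obtain ⟨M', rfl⟩ := hM
  obtain ⟨N', rfl⟩ := hN
  exact ⟨M' + N', Matrix.map_add _ (map_add φ) _ _⟩

lemma IM.neg {M : Matrix r r R'} (hM : IM φ M) : IM φ (-M) := by
  obtain ⟨M', rfl⟩ := hM
  exact ⟨-M', by ext1 a b; simp⟩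

lemma IM.sub {M N : Matrix r r R'} (hM : IM φ M) (hN : IM φ N) : IM φ (M - N) := by
  rw [sub_eq_add_neg]; exact hM.add hN.neg

lemma IM.zero : IM φ (0 : Matrix r r R') := ⟨0, by ext1 a b; simp⟩

lemma IM.one : IM φ (1 : Matrix r r R') := ⟨1, Matrix.map_one _ (map_zero _) (map_one _)⟩

lemma IM.sum {α : Type*} (s : Finset α) {f : α → Matrix r r R'} (h : ∀ i ∈ s, IM φ (f i)) :
    IM φ (∑ i ∈ s, f i) := by
  classical
  induction s using Finset.induction_on with
  | empty => exact IM.zero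
  | insert i s hi ih =>
    rw [Finset.sum_insert hi]
    exact (h i (Finset.mem_insert_self i s)).add (ih fun j hj => h j (Finset.mem_insert_of_mem hj))

lemma IM.smul (c : R) {M : Matrix r r R'} (h : IM φ M) : IM φ (φ c • M) := by
  obtain ⟨M', rfl⟩ := h
  exact ⟨c • M', by ext1 a b; simp⟩

lemma IM.nat (c : ℕ) {M : Matrix r r R'} (h : IM φ M) : IM φ ((c : R') • M) := by
  have h1 := h.smul (c : R)
  rwa [map_natCast] at h1

lemma IM.dvd {c d : ℕ} (hcd : c ∣ d) {M : Matrix r r R'} (h : IM φ ((c : R') • M)) :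
    IM φ ((d : R') • M) := by
  obtain ⟨e, rfl⟩ := hcd
  have h1 := h.nat e
  rw [smul_smul, mul_comm] at h1
  rwa [Nat.cast_mul]

variable (φ)

/-- Weighted integrality. -/
def WI (p : ℕ) (Y : Matrix r r R'⟦X⟧) : Prop := ∀ k, IM φ ((wt p k : R') • cm k Y)

variable {φ} {p : ℕ}

lemma WI.add {Y Z : Matrix r r R'⟦X⟧} (hY : WI φ p Y) (hZ : WI φ p Z) : WI φ p (Y + Z) := by
  intro k
  rw [cm_add, smul_add]
  exact (hY k).add (hZ k)

lemma mul_term {a b k : ℕ} (h : a + b = k) {M N : Matrix r r R'} (hM : IM φ ((wt p a : R') • M))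
    (hN : IM φ ((wt p b : R') • N)) : IM φ ((wt p k : R') • (M * N)) := by
  have h1 := hM.mul hN
  rw [smul_mul_smul_comm, ← Nat.cast_mul] at h1
  exact h1.dvd (wt_dvd h)

lemma WI.mul {Y Z : Matrix r r R'⟦X⟧} (hY : WI φ p Y) (hZ : WI φ p Z) : WI φ p (Y * Z) := by
  intro k
  rw [cm_mul, Finset.smul_sum]
  refine IM.sum _ fun ij hij => ?_
  rw [Finset.HasAntidiagonal.mem_antidiagonal] at hij
  exact mul_term hij (hY _) (hZ _)

lemma WI.C {M : Matrix r r R'} (hM : IM φ M) : WI φ p (M.map (PowerSeries.C : R' →+* R'⟦X⟧)) := by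
  intro k
  have h1 : cm k (M.map (PowerSeries.C : R' →+* R'⟦X⟧)) = if k = 0 then M else 0 := by
    ext1 a b
    simp only [cm, Matrix.map_apply, coeff_C]
    split_ifs <;> rfl
  rw [h1]
  split_ifs with h
  · exact hM.nat _
  · rw [smul_zero]; exact IM.zero

lemma cm_Cmul (m : ℕ) (N : Matrix r r R') (Y : Matrix r r R'⟦X⟧) :
    cm m (N.map (PowerSeries.C : R' →+* R'⟦X⟧) * Y) = N * cm m Y := by
  ext1 a b
  simp only [cm, Matrix.map_apply, Matrix.mul_apply, map_sum, coeff_C_mul]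

lemma WI.inv {Y Z : Matrix r r R'⟦X⟧} (hY : WI φ p Y) (h0 : cm 0 Y = 1) (hYZ : Y * Z = 1) :
    WI φ p Z := by
  intro k
  induction k using Nat.strong_induction_on with
  | _ k ih =>
    rcases k with _ | k
    · have h1 := congrArg (cm 0) hYZ
      have h2 : Finset.HasAntidiagonal.antidiagonal 0 = {((0 : ℕ), (0 : ℕ))} := rfl
      rw [cm_mul, h2, Finset.sum_singleton, cm_one] at h1
      simp only [if_true] at h1
      rw [h0, one_mul] at h1
      rw [h1, wt_zero, Nat.cast_one, one_smul]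
      exact IM.one
    · have h1 := congrArg (cm (k + 1)) hYZ
      rw [cm_mul, Finset.Nat.sum_antidiagonal_succ, cm_one, if_neg (Nat.succ_ne_zero k)] at h1
      simp only at h1
      rw [h0, one_mul] at h1
      rw [eq_neg_of_add_eq_zero_left h1, smul_neg, Finset.smul_sum]
      refine (IM.sum _ fun ij hij => ?_).neg
      rw [Finset.HasAntidiagonal.mem_antidiagonal] at hij
      exact mul_term (by omega) (hY _) (ih _ (by omega))

lemma WI.dx {δ' : Der R'} {T' : R'} {δ : Der R} {T : R} (hT : φ T = T')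
    (hδ : ∀ a, φ (δ a) = δ' (φ a)) {Y : Matrix r r R'⟦X⟧} (hY : WI φ p Y) :
    WI φ p (Y.map (dx δ' T')) := by
  intro k
  obtain ⟨M, hM⟩ := hY k
  refine ⟨T • M.map δ - ((k : R) * δ T) • M, ?_⟩
  rw [cm_dx]
  ext1 a b
  have h1 : φ (M a b) = (wt p k : R') * cm k Y a b := by
    have h2 := congrFun (congrFun hM a) b
    rwa [Matrix.map_apply, Matrix.smul_apply, smul_eq_mul] at h2
  simp only [Matrix.map_apply, Matrix.sub_apply, Matrix.smul_apply, smul_eq_mul, map_sub, map_mul,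
    map_natCast, hδ, hT, h1]
  rw [der_leib]
  have h3 : δ' (wt p k : R') = 0 := δ'.map_natCast _
  rw [h3]
  ring

end Pool.Agent.X98.SL
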