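import Pool.Agent.X98.SL.Conc
import Pool.Agent.X98.SL.Crt
import Pool.Agent.X98.SL.Wt

set_option autoImplicit false
set_option linter.unusedSectionVars false

/-!
# Integrality of the gauge transformation
-/

namespace Pool.Agent.X98.SL

open Pool.Agent.X98.KZ Pool.Agent.X98.SC

variable {O F : Type*} [CommRing O] [Field F] (φ : O →+* F) {ι : Type*} [Fintype ι] [DecidableEq ι]
  {r : Type*} [Fintype r] [DecidableEq r]

lemma MD_iff {L : Type*} [CommRing L] (f : L) (M : Matrix r r L) :
    MD f M ↔ ∀ a b, f ∣ M a b := by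
  constructor
  · rintro ⟨M', rfl⟩ a b
    exact ⟨M' a b, rfl⟩
  · intro h
    choose e he using h
    exact ⟨Matrix.of e, by ext1 a b; rw [he]; rfl⟩

lemma deg_C_mul_le (a : F) (f : Polynomial F) : (Polynomial.C a * f).degree ≤ f.degree := by
  by_cases h : a = 0
  · rw [h, map_zero, zero_mul, Polynomial.degree_zero]; exact bot_le
  · rw [Polynomial.degree_C_mul h]

/-- Integrality of `P` from the congruences. -/
theorem P_int {p : ℕ} (z : ι → O) (hz : ∀ i j, i ≠ j → IsUnit (z i - z j))
    (P : Matrix r r (PowerSeries (Polynomial F))) (hP0 : cm 0 P = 1)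
    (hdeg : ∀ k a b, (cm (k + 1) P a b).degree < (((k + 1) * Fintype.card ι : ℕ) : WithBot ℕ))
    (U : ι → Matrix r r (PowerSeries (Polynomial F))) (hU0 : ∀ i, cm 0 (U i) = 1)
    (hU : ∀ i, WI (Polynomial.mapRingHom φ) p (U i))
    (hd : ∀ i k, MD ((Polynomial.X - Polynomial.C (φ (z i))) ^ k) (cm k (P * U i))) :
    WI (Polynomial.mapRingHom φ) p P := by
  intro k
  induction k using Nat.strong_induction_on with
  | _ k ih =>
    rcases k with _ | k
    · rw [hP0, wt_zero, Nat.cast_one, one_smul]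
      exact IM.one
    · have h1 : ∀ i, cm (k + 1) (P * U i) = cm (k + 1) P +
          ∑ ij ∈ Finset.HasAntidiagonal.antidiagonal k, cm ij.1 P * cm (ij.2 + 1) (U i) := by
        intro i
        rw [cm_mul, Finset.Nat.sum_antidiagonal_succ']
        simp only
        rw [hU0, mul_one]
      have h2 : ∀ i, ∃ M : Matrix r r (Polynomial O), M.map (Polynomial.mapRingHom φ) =
          (wt p (k + 1) : Polynomial F) • ∑ ij ∈ Finset.HasAntidiagonal.antidiagonal k,
            cm ij.1 P * cm (ij.2 + 1) (U i) := by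
        intro i
        rw [Finset.smul_sum]
        refine IM.sum _ fun ij hij => ?_
        rw [Finset.HasAntidiagonal.mem_antidiagonal] at hij
        exact mul_term (by omega) (ih _ (by omega)) (hU i _)
      choose M hM using h2
      have h3 : ∀ a b, ∃ e : Polynomial O, e.map φ =
          (wt p (k + 1) : Polynomial F) * cm (k + 1) P a b := by
        intro a b
        refine crt_int φ z hz (k + 1) _ ?_ fun i => ⟨-M i a b, ?_⟩
        · have h4 : ((wt p (k + 1) : ℕ) : Polynomial F) =
              Polynomial.C ((wt p (k + 1) : ℕ) : F) := by simp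
          rw [h4]
          refine lt_of_le_of_lt ?_ (hdeg k a b)
          exact deg_C_mul_le _ _
        · have h4 : (M i a b).map φ = (wt p (k + 1) : Polynomial F) *
              (∑ ij ∈ Finset.HasAntidiagonal.antidiagonal k,
                cm ij.1 P * cm (ij.2 + 1) (U i)) a b := by
            have h5 := congrFun (congrFun (hM i) a) b
            rwa [Matrix.map_apply, Matrix.smul_apply, smul_eq_mul] at h5
          rw [Polynomial.map_neg, h4, sub_neg_eq_add, ← mul_add, ← Matrix.add_apply, ← h1]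
          exact Dvd.dvd.mul_left ((MD_iff _ _).mp (hd i (k + 1)) a b) _
      choose e he using h3
      refine ⟨Matrix.of e, ?_⟩
      ext1 a b
      rw [Matrix.map_apply, Matrix.smul_apply, smul_eq_mul, ← he]
      rfl

section degree

lemma deg_mul_lt {f g : Polynomial F} {A B : ℕ} (hf : f.degree < ((A : ℕ) : WithBot ℕ))
    (hg : g.degree ≤ ((B : ℕ) : WithBot ℕ)) : (f * g).degree < ((A + B : ℕ) : WithBot ℕ) := by
  by_cases h1 : f = 0
  · rw [h1, zero_mul, Polynomial.degree_zero]
    exact WithBot.bot_lt_coe _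
  by_cases h2 : g = 0
  · rw [h2, mul_zero, Polynomial.degree_zero]
    exact WithBot.bot_lt_coe _
  rw [Polynomial.degree_mul]
  rw [Polynomial.degree_eq_natDegree h1] at hf ⊢
  rw [Polynomial.degree_eq_natDegree h2] at hg ⊢
  norm_cast at hf hg ⊢
  omega

lemma deg_sum_lt {α : Type*} (s : Finset α) (f : α → Polynomial F) {A : ℕ}
    (h : ∀ i ∈ s, (f i).degree < ((A : ℕ) : WithBot ℕ)) :
    (∑ i ∈ s, f i).degree < ((A : ℕ) : WithBot ℕ) := by
  rw [← Polynomial.mem_degreeLT]
  exact Submodule.sum_mem _ fun i hi => Polynomial.mem_degreeLT.mpr (h i hi)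

/-- The degree bound. -/
lemma P_deg [CharZero F] {N : ℕ} (B P : Matrix r r (PowerSeries (Polynomial F)))
    (hB : ∀ k a b, (cm k B a b).degree < (((k + 1) * N : ℕ) : WithBot ℕ))
    (hP : P.map ds = B * P) (hP0 : cm 0 P = 1) (k : ℕ) :
    ∀ a b, (cm (k + 1) P a b).degree < (((k + 1) * N : ℕ) : WithBot ℕ) := by
  induction k using Nat.strong_induction_on with
  | _ k ih =>
    intro a b
    have h0 : ∀ j ≤ k, ∀ a b, (cm j P a b).degree ≤ ((j * N : ℕ) : WithBot ℕ) := by
      intro j hj a b
      rcases j with _ | j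
      · rw [hP0, Matrix.one_apply, zero_mul]
        split_ifs
        · exact Polynomial.degree_one_le
        · rw [Polynomial.degree_zero]; exact bot_le
      · exact (ih j (by omega) a b).le
    have h1 := congrFun (congrFun (congrArg (cm k) hP) a) b
    rw [cm_ds, cm_mul, Matrix.smul_apply, smul_eq_mul, Matrix.sum_apply] at h1
    have h2 : (∑ c ∈ Finset.HasAntidiagonal.antidiagonal k,
        (cm c.1 B * cm c.2 P) a b).degree < (((k + 1) * N : ℕ) : WithBot ℕ) := by
      refine deg_sum_lt _ _ fun ij hij => ?_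
      rw [Finset.HasAntidiagonal.mem_antidiagonal] at hij
      rw [Matrix.mul_apply]
      refine deg_sum_lt _ _ fun c _ => ?_
      have h3 := deg_mul_lt (hB ij.1 a c) (h0 ij.2 (by omega) c b)
      have h4 : (ij.1 + 1) * N + ij.2 * N = (k + 1) * N := by
        rw [← add_mul, ← hij]; ring
      rwa [h4] at h3
    rw [← h1] at h2
    have h3 : ((k : Polynomial F) + 1) = Polynomial.C ((k : F) + 1) := by simp
    rw [h3, Polynomial.degree_C_mul (by exact_mod_cast Nat.succ_ne_zero k)] at h2
    exact h2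

lemma natDegree_TT (z : ι → F) : (TT z).natDegree ≤ Fintype.card ι := by
  rw [TT, Polynomial.natDegree_prod_of_monic _ _ fun i _ => Polynomial.monic_X_sub_C (z i)]
  simp

lemma coeff_term_deg (z c : ι → F) (i : ι) (f : PowerSeries F) (k : ℕ) :
    (PowerSeries.coeff k (PowerSeries.C (Polynomial.C (c i)) * ee z c i * emb (TT z) f)).degree <
      (((k + 1) * Fintype.card ι : ℕ) : WithBot ℕ) := by
  have hpos : 0 < Fintype.card ι := Fintype.card_pos_iff.mpr ⟨i⟩
  rw [mul_assoc, PowerSeries.coeff_C_mul, PowerSeries.coeff_mul]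
  refine lt_of_le_of_lt (deg_C_mul_le _ _) ?_
  refine deg_sum_lt _ _ fun ij hij => ?_
  rw [Finset.HasAntidiagonal.mem_antidiagonal] at hij
  rw [coeff_ee, coeff_emb]
  have h1 : (Polynomial.C (c i) ^ ij.1 * Tc z i ^ (ij.1 + 1)).natDegree ≤
      (ij.1 + 1) * (Fintype.card ι - 1) := by
    refine Polynomial.natDegree_mul_le.trans ?_
    rw [← Polynomial.C_pow, Polynomial.natDegree_C, zero_add]
    exact Polynomial.natDegree_pow_le.trans (Nat.mul_le_mul_left _ (natDegree_Tc z i))
  have h2 : ((TT z) ^ ij.2 * Polynomial.C (PowerSeries.coeff ij.2 f)).natDegree ≤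
      ij.2 * Fintype.card ι := by
    refine (Polynomial.natDegree_mul_C_le _ _).trans ?_
    exact Polynomial.natDegree_pow_le.trans (Nat.mul_le_mul_left _ (natDegree_TT z))
  refine lt_of_le_of_lt Polynomial.degree_le_natDegree ?_
  have h3 := Polynomial.natDegree_mul_le.trans (Nat.add_le_add h1 h2)
  have h4 : (ij.1 + 1) * (Fintype.card ι - 1) + ij.2 * Fintype.card ι <
      (k + 1) * Fintype.card ι := by
    have h5 : (ij.1 + 1) * (Fintype.card ι - 1) < (ij.1 + 1) * Fintype.card ι :=
      Nat.mul_lt_mul_of_pos_left (by omega) (by omega)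
    calc _ < (ij.1 + 1) * Fintype.card ι + ij.2 * Fintype.card ι := by omega
      _ = (k + 1) * Fintype.card ι := by rw [← add_mul, ← hij]; ring
  exact_mod_cast lt_of_le_of_lt h3 h4

lemma BB_deg (z c : ι → F) (A : ι → Matrix r r (PowerSeries F)) (k : ℕ) (a b : r) :
    (cm k (BB z c A) a b).degree < (((k + 1) * Fintype.card ι : ℕ) : WithBot ℕ) := by
  have h1 : cm k (BB z c A) a b = -∑ i, PowerSeries.coeff k
      (PowerSeries.C (Polynomial.C (c i)) * ee z c i * emb (TT z) (A i a b)) := by
    rw [BB, lc, cm, Matrix.map_apply, Matrix.neg_apply, map_neg, Matrix.sum_apply, map_sum]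
    rfl
  rw [h1, Polynomial.degree_neg]
  exact deg_sum_lt _ _ fun i _ => coeff_term_deg z c i _ k

end degree

/-- The matrix `B + c_i A` has no pole at `z_i`. -/
lemma reg_term (z c : ι → F) (A : ι → Matrix r r (PowerSeries F)) (i : ι) (k : ℕ) :
    MD ((Polynomial.X - Polynomial.C (z i)) ^ (k + 1))
      (cm k (BB z c A + PowerSeries.C (Polynomial.C (c i)) • AA z c A)) := by
  rw [MD_iff]
  intro a b
  have h1 : cm k (BB z c A + PowerSeries.C (Polynomial.C (c i)) • AA z c A) a b =
      ∑ j, Polynomial.C (c i - c j) * PowerSeries.coeff k (ee z c j * emb (TT z) (A j a b)) := by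
    rw [BB, AA, lc, lc, cm, Matrix.map_apply, Matrix.add_apply, Matrix.neg_apply,
      Matrix.smul_apply, Matrix.sum_apply, Matrix.sum_apply, map_add, map_neg, smul_eq_mul,
      PowerSeries.coeff_C_mul, map_sum, map_sum, Finset.mul_sum, ← Finset.sum_neg_distrib,
      ← Finset.sum_add_distrib]
    refine Finset.sum_congr rfl fun j _ => ?_
    rw [Matrix.smul_apply, Matrix.smul_apply, Matrix.map_apply, smul_eq_mul, smul_eq_mul,
      mul_assoc, PowerSeries.coeff_C_mul, map_sub]
    ring
  rw [h1]
  refine Finset.dvd_sum fun j _ => ?_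
  by_cases hj : j = i
  · rw [hj, sub_self, map_zero, zero_mul]
    exact dvd_zero _
  · refine Dvd.dvd.mul_left ?_ _
    rw [PowerSeries.coeff_mul]
    refine Finset.dvd_sum fun ij hij => ?_
    rw [Finset.HasAntidiagonal.mem_antidiagonal] at hij
    rw [coeff_ee, coeff_emb]
    have h2 : (Polynomial.X - Polynomial.C (z i)) ∣ Tc z j :=
      Finset.dvd_prod_of_mem _ (Finset.mem_erase.mpr ⟨Ne.symm hj, Finset.mem_univ i⟩)
    have h3 : (Polynomial.X - Polynomial.C (z i)) ∣ TT z :=
      Finset.dvd_prod_of_mem _ (Finset.mem_univ i)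
    have h4 : k + 1 = (ij.1 + 1) + ij.2 := by omega
    rw [h4, pow_add]
    exact mul_dvd_mul (Dvd.dvd.mul_left (pow_dvd_pow_of_dvd h2 _) _)
      (Dvd.dvd.mul_right (pow_dvd_pow_of_dvd h3 _) _)

end Pool.Agent.X98.SL
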