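import Pool.Agent.X98.SL.Reg

set_option autoImplicit false
set_option linter.unusedSectionVars false

/-!
# Divisibility of `T ^ m ∇ ^ m` by powers of `p`
-/

namespace Pool.Agent.X98.SL

open Pool.Agent.X98.KZ Pool.Agent.X98.SC

/-- The derivative of polynomials. -/
noncomputable def pd (R : Type*) [CommRing R] : Der (Polynomial R) :=
  mkDer (fun f : Polynomial R => Polynomial.derivative f) (fun f g => by rw [map_add])
    (fun f g => by
      rw [Polynomial.derivative_mul]
      ring)

lemma pd_apply {R : Type*} [CommRing R] (f : Polynomial R) : pd R f = Polynomial.derivative f := rfl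

lemma iter_add_der {S : Type*} [CommRing S] (D : Der S) (m : ℕ) (a b : S) :
    (⇑D)^[m] (a + b) = (⇑D)^[m] a + (⇑D)^[m] b := by
  induction m with
  | zero => rfl
  | succ m ih => rw [Function.iterate_succ_apply', ih, map_add, Function.iterate_succ_apply',
      Function.iterate_succ_apply']

lemma iter_mul_char {S : Type*} [CommRing S] (D : Der S) {p : ℕ} (hp : p.Prime)
    (hS : (p : S) = 0) (a b : S) :
    (⇑D)^[p] (a * b) = (⇑D)^[p] a * b + a * (⇑D)^[p] b :=
  iter_leibniz_char (⇑D) (⇑D) (map_add D) (map_zero D) (fun a b => by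
    rw [Derivation.leibniz, smul_eq_mul, smul_eq_mul]; ring) hp hS a b

lemma iter_of_zero {S : Type*} [CommRing S] (D : Der S) {m : ℕ} (hm : 0 < m) {a : S}
    (h : D a = 0) : (⇑D)^[m] a = 0 := by
  induction m with
  | zero => omega
  | succ m ih =>
    rcases m with _ | m
    · exact h
    · rw [Function.iterate_succ_apply', ih (by omega), map_zero]

section charp

variable {k : Type*} [CommRing k] {p : ℕ}

lemma natCast_ps (hk : (p : k) = 0) : ((p : ℕ) : PowerSeries (Polynomial k)) = 0 := by
  have h1 : ((p : ℕ) : PowerSeries (Polynomial k)) =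
      PowerSeries.C (Polynomial.C ((p : ℕ) : k)) := by
    rw [map_natCast, map_natCast]
  rw [h1, hk, map_zero, map_zero]

lemma dh_X_T (T : Polynomial k) : dh (pd k) T (PowerSeries.X * PowerSeries.C T) = 0 := by
  have h := dx_mono (pd k) T 1 T
  rw [pow_one] at h
  rw [dh_apply, h]
  have h2 : T * pd k T - ((1 : ℕ) : Polynomial k) * pd k T * T = 0 := by
    push_cast; ring
  rw [h2, map_zero, mul_zero, mul_zero]

lemma G_C (hp : p.Prime) (hk : (p : k) = 0) (T f : Polynomial k) :
    (⇑(dh (pd k) T))^[p] (PowerSeries.C f) = 0 := by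
  have hS := natCast_ps hk
  induction f using Polynomial.induction_on' with
  | add f g hf hg => rw [map_add, iter_add_der, hf, hg, add_zero]
  | monomial n a =>
    rw [← Polynomial.C_mul_X_pow_eq_monomial, map_mul, iter_mul_char _ hp hS]
    have h1 : (⇑(dh (pd k) T))^[p] (PowerSeries.C (Polynomial.C a)) = 0 := by
      refine iter_of_zero _ hp.pos ?_
      rw [dh_apply, dx_C, pd_apply, Polynomial.derivative_C, mul_zero, map_zero,
        mul_zero]
    have h2 : (⇑(dh (pd k) T))^[p] (PowerSeries.C (Polynomial.X : Polynomial k)) = 0 := by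
      obtain ⟨q, hq⟩ : ∃ q, p = q + 1 := ⟨p - 1, by have := hp.pos; omega⟩
      rw [hq, Function.iterate_succ_apply]
      refine iter_of_zero _ (by have := hp.two_le; omega) ?_
      have h3 : dh (pd k) T (PowerSeries.C (Polynomial.X : Polynomial k)) =
          PowerSeries.X * PowerSeries.C T := by
        rw [dh_apply, dx_C, pd_apply, Polynomial.derivative_X, mul_one]
      rw [h3, dh_X_T]
    have h3 : ∀ n : ℕ, (⇑(dh (pd k) T))^[p]
        (PowerSeries.C ((Polynomial.X : Polynomial k) ^ n)) = 0 := by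
      intro n
      induction n with
      | zero =>
        refine iter_of_zero _ hp.pos ?_
        rw [pow_zero, map_one, der_one]
      | succ n ih => rw [pow_succ, map_mul, iter_mul_char _ hp hS, ih, h2, zero_mul, mul_zero,
          add_zero]
    rw [h1, h3, zero_mul, mul_zero, add_zero]

lemma G_X (hp : p.Prime) (hk : (p : k) = 0) (T : Polynomial k) (hT : T.Monic) (q : ℕ) :
    (⇑(dh (pd k) T))^[p] (PowerSeries.X ^ q) = 0 := by
  have hS := natCast_ps hk
  have h1 : (⇑(dh (pd k) T))^[p] PowerSeries.X = 0 := by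
    have h2 : (⇑(dh (pd k) T))^[p] (PowerSeries.X * PowerSeries.C T) = 0 :=
      iter_of_zero _ hp.pos (dh_X_T T)
    rw [iter_mul_char _ hp hS, G_C hp hk, mul_zero, add_zero] at h2
    ext1 n
    have h3 := congrArg (PowerSeries.coeff n) h2
    rw [mul_comm, PowerSeries.coeff_C_mul, map_zero] at h3
    rw [map_zero]
    exact (hT.mul_right_eq_zero_iff).mp h3
  induction q with
  | zero =>
    refine iter_of_zero _ hp.pos ?_
    rw [pow_zero, der_one]
  | succ q ih => rw [pow_succ, iter_mul_char _ hp hS, ih, h1, zero_mul, mul_zero, add_zero]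

variable {r : Type*} [Fintype r] [DecidableEq r]

lemma natCast_mat_gen {S : Type*} [CommRing S] (hS : (p : S) = 0) :
    ((p : ℕ) : Matrix r r S) = 0 := by
  rw [← nsmul_one]
  ext1 a b
  rw [Matrix.smul_apply, nsmul_eq_mul, hS, zero_mul, Matrix.zero_apply]

lemma natCast_mat' (hk : (p : k) = 0) :
    ((p : ℕ) : Matrix r r (PowerSeries (Polynomial k))) = 0 :=
  natCast_mat_gen (natCast_ps hk)

/-- In characteristic `p` the vanishing of the p-curvature means that `∇ ^ p = 0`. -/
theorem IF_zero (hp : p.Prime) (hk : (p : k) = 0) (T : Polynomial k) (hT : T.Monic)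
    (N : Matrix r r (Polynomial k)) (h : IF (pd k) T N 0 p 1 = 0) (q : ℕ)
    (Y : Matrix r r (Polynomial k)) : IF (pd k) T N q p Y = 0 := by
  set C' : Polynomial k →+* PowerSeries (Polynomial k) := PowerSeries.C (R := Polynomial k) with hC'
  set M : Matrix r r (PowerSeries (Polynomial k)) := (PowerSeries.X : PowerSeries (Polynomial k)) ^ q • Y.map C' with hM
  have h1 := Hh_iter (pd k) T N 0 p 1
  rw [h] at h1
  have h2 : (Hh (pd k) T N)^[p] (1 : Matrix r r (PowerSeries (Polynomial k))) = 0 := by
    have h3 : (1 : Matrix r r (PowerSeries (Polynomial k))) =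
        (PowerSeries.X : PowerSeries (Polynomial k)) ^ 0 •
          (1 : Matrix r r (Polynomial k)).map C' := by
      rw [pow_zero, one_smul, Matrix.map_one _ (map_zero _) (map_one _)]
    rw [h3, h1]
    ext1 a b
    simp
  have h4 := iter_leibniz_char (Hh (pd k) T N)
    (fun Y : Matrix r r (PowerSeries (Polynomial k)) => Y.map (dh (pd k) T))
    (Hh_add (pd k) T N) (Hh_zero (pd k) T N) (Hh_mul (pd k) T N) hp (natCast_mat' hk) 1 M
  rw [one_mul, h2, zero_mul, zero_add, one_mul] at h4
  have h5 : ∀ m : ℕ, (fun Y : Matrix r r (PowerSeries (Polynomial k)) =>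
      Y.map (dh (pd k) T))^[m] M = M.map ((⇑(dh (pd k) T))^[m]) := by
    intro m
    induction m with
    | zero => ext1 a b; rfl
    | succ m ih =>
      rw [Function.iterate_succ_apply', ih]
      ext1 a b
      simp only [Matrix.map_apply]
      rw [Function.iterate_succ_apply']
  rw [h5] at h4
  have h6 : M.map ((⇑(dh (pd k) T))^[p]) = 0 := by
    ext1 a b
    rw [Matrix.map_apply, hM, Matrix.smul_apply, smul_eq_mul, Matrix.map_apply,
      iter_mul_char _ hp (natCast_ps hk), G_X hp hk T hT, G_C hp hk, zero_mul, mul_zero, add_zero,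
      Matrix.zero_apply]
  rw [h6, hM, Hh_iter] at h4
  ext1 a b
  have h7 := congrArg (PowerSeries.coeff (q + p)) (congrFun (congrFun h4 a) b)
  rw [Matrix.smul_apply, smul_eq_mul, Matrix.map_apply, mul_comm, PowerSeries.coeff_C_mul,
    PowerSeries.coeff_X_pow_self, mul_one, Matrix.zero_apply, map_zero] at h7
  rw [h7, Matrix.zero_apply]

end charp

variable {r : Type*} [Fintype r] [DecidableEq r]

lemma IF_map {R R' : Type*} [CommRing R] [CommRing R'] (π : R →+* R') (T : Polynomial R)
    (N : Matrix r r (Polynomial R)) (q m : ℕ) (Y : Matrix r r (Polynomial R)) :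
    (IF (pd R) T N q m Y).map (Polynomial.mapRingHom π) =
      IF (pd R') (T.map π) (N.map (Polynomial.mapRingHom π)) q m
        (Y.map (Polynomial.mapRingHom π)) := by
  induction m with
  | zero => rfl
  | succ m ih =>
    rw [IF, IF, ← ih, Fq, Fq, ← Matrix.map_mul]
    ext1 a b
    simp only [Matrix.map_apply, Matrix.sub_apply, Matrix.smul_apply, smul_eq_mul, map_sub,
      map_mul, pd_apply, Polynomial.coe_mapRingHom, Polynomial.derivative_map, map_natCast,
      Polynomial.map_sub, Polynomial.map_mul, Polynomial.map_natCast]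

lemma IF_add {L : Type*} [CommRing L] (δ : Der L) (T : L) (N : Matrix r r L)
    (q m m' : ℕ) (Y : Matrix r r L) :
    IF δ T N q (m + m') Y = IF δ T N (q + m) m' (IF δ T N q m Y) := by
  induction m' with
  | zero => rfl
  | succ m' ih =>
    rw [← add_assoc, IF, IF, ih, add_assoc]

lemma IF_smul {L : Type*} [CommRing L] (δ : Der L) (T : L) (N : Matrix r r L)
    (q m c : ℕ) (Y : Matrix r r L) : IF δ T N q m ((c : L) • Y) = (c : L) • IF δ T N q m Y := by
  induction m with
  | zero => rfl
  | succ m ih =>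
    rw [IF, IF, ih, Fq, Fq]
    ext1 a b
    simp only [Matrix.sub_apply, Matrix.smul_apply, Matrix.map_apply, smul_eq_mul,
      Derivation.leibniz, Derivation.map_natCast, mul_zero, add_zero, mul_smul_comm]
    ring

/-- Divisibility of all `T ^ (q + p) ∇ ^ p (T ^ (-q) Y)` by `p`. -/
theorem IF_dvd {O : Type*} [CommRing O] {p : ℕ} (hp : p.Prime) (T : Polynomial O) (hT : T.Monic)
    (N E : Matrix r r (Polynomial O)) (h : IF (pd O) T N 0 p 1 = (p : Polynomial O) • E) (q : ℕ)
    (Y : Matrix r r (Polynomial O)) : ∃ E', IF (pd O) T N q p Y = (p : Polynomial O) • E' := by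
  set I : Ideal O := Ideal.span {(p : O)} with hI
  set π : O →+* O ⧸ I := Ideal.Quotient.mk I with hπ
  have hk : ((p : ℕ) : O ⧸ I) = 0 := by
    rw [← map_natCast π]
    exact Ideal.Quotient.eq_zero_iff_mem.mpr (Ideal.mem_span_singleton_self _)
  have h1 := IF_map π T N 0 p 1
  rw [h, Matrix.map_one _ (map_zero _) (map_one _)] at h1
  have h2 : ((p : Polynomial O) • E).map (Polynomial.mapRingHom π) = 0 := by
    ext1 a b
    rw [Matrix.map_apply, Matrix.smul_apply, smul_eq_mul, map_mul, map_natCast]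
    have h3 : ((p : ℕ) : Polynomial (O ⧸ I)) = 0 := by
      rw [← map_natCast (Polynomial.C (R := O ⧸ I)), hk, map_zero]
    rw [h3, zero_mul, Matrix.zero_apply]
  rw [h2] at h1
  have h3 := IF_zero hp hk (T.map π) (hT.map π) (N.map (Polynomial.mapRingHom π)) h1.symm q
    (Y.map (Polynomial.mapRingHom π))
  rw [← IF_map] at h3
  have h4 : ∀ a b, ∃ e : Polynomial O, IF (pd O) T N q p Y a b = (p : Polynomial O) * e := by
    intro a b
    have h5 : (IF (pd O) T N q p Y a b).map π = 0 := congrFun (congrFun h3 a) b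
    have h6 : Polynomial.C (p : O) ∣ IF (pd O) T N q p Y a b := by
      rw [Polynomial.C_dvd_iff_dvd_coeff]
      intro n
      have h7 := congrArg (fun f => Polynomial.coeff f n) h5
      simp only [Polynomial.coeff_map, Polynomial.coeff_zero] at h7
      exact Ideal.mem_span_singleton.mp (Ideal.Quotient.eq_zero_iff_mem.mp h7)
    obtain ⟨e, he⟩ := h6
    exact ⟨e, by rw [he, map_natCast]⟩
  choose e he using h4
  exact ⟨Matrix.of e, by ext1 a b; rw [he]; rfl⟩

/-- `T ^ m ∇ ^ m (1)` is divisible by `p ^ (m / p)`. -/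
theorem IF_pow {O : Type*} [CommRing O] {p : ℕ} (hp : p.Prime) (T : Polynomial O) (hT : T.Monic)
    (N E : Matrix r r (Polynomial O)) (h : IF (pd O) T N 0 p 1 = (p : Polynomial O) • E) (m : ℕ) :
    ∃ E', IF (pd O) T N 0 m 1 = ((p ^ (m / p) : ℕ) : Polynomial O) • E' := by
  have h1 : ∀ j : ℕ, ∃ E', IF (pd O) T N 0 (j * p) 1 = ((p ^ j : ℕ) : Polynomial O) • E' := by
    intro j
    induction j with
    | zero => exact ⟨1, by rw [zero_mul, pow_zero, Nat.cast_one, one_smul]; rfl⟩
    | succ j ih =>
      obtain ⟨E1, hE1⟩ := ih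
      obtain ⟨E2, hE2⟩ := IF_dvd hp T hT N E h (j * p) E1
      refine ⟨E2, ?_⟩
      rw [Nat.succ_mul, IF_add, hE1, zero_add, IF_smul, hE2, smul_smul, pow_succ]
      push_cast
      rfl
  obtain ⟨E1, hE1⟩ := h1 (m / p)
  refine ⟨IF (pd O) T N (m / p * p) (m % p) E1, ?_⟩
  conv_lhs => rw [← Nat.div_add_mod' m p]
  rw [IF_add, hE1, zero_add, IF_smul]

lemma curv_eq {R : Type*} [CommRing R] {ι : Type*} [Fintype ι] [DecidableEq ι]
    (A : ι → Matrix r r R) (z : ι → R) (m : ℕ) :
    curv A z m = IF (pd R) (TT z) (NN A z) 0 m 1 := by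
  induction m with
  | zero => rfl
  | succ m ih =>
    rw [curv, ih, IF, Fq, zero_add]
    rfl

end Pool.Agent.X98.SL
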