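import Pool.Agent.X98.SL.Fin

set_option autoImplicit false
set_option linter.unusedSectionVars false

/-!
# The p-curvature of the deformed system
-/

namespace Pool.Agent.X98.SL

open Pool.Agent.X98.KZ Pool.Agent.X98.SC

lemma der_pow {S : Type*} [CommRing S] (D : Der S) (a : S) (n : ℕ) :
    D (a ^ n) = (n : S) * a ^ (n - 1) * D a := by
  rw [Derivation.leibniz_pow, nsmul_eq_mul, smul_eq_mul, mul_assoc]

section gen

variable {L : Type*} [CommRing L] (δ : Der L) (T : L) {r : Type*} [Fintype r] [DecidableEq r]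

/-- `T ^ m ∇ ^ m (Z)` for `T ∇ = T ∂_x - A`. -/
noncomputable def pc (A : Matrix r r (PowerSeries L)) (Z : Matrix r r (PowerSeries L)) :
    ℕ → Matrix r r (PowerSeries L)
  | 0 => Z
  | m + 1 => (pc A Z m).map (dx δ T) - PowerSeries.C ((m : L) * δ T) • pc A Z m - A * pc A Z m

lemma pc_gauge (A P N V : Matrix r r (PowerSeries L))
    (hP : P.map (dx δ T) = A * P - P * N) (m : ℕ) :
    pc δ T A (P * V) m = P * pc δ T N V m := by
  induction m with
  | zero => rfl
  | succ m ih =>
    rw [pc, pc, ih, dm_mul, hP]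
    simp only [mul_sub, sub_mul, mul_smul_comm, mul_assoc]
    abel

lemma cm_pc (N : Matrix r r L) (Z : Matrix r r (PowerSeries L)) (k m : ℕ) :
    cm k (pc δ T (N.map (PowerSeries.C : L →+* PowerSeries L)) Z m) = IF δ T N k m (cm k Z) := by
  induction m with
  | zero => rfl
  | succ m ih =>
    rw [pc, IF, cm_sub, cm_sub, cm_dx, cm_smul_C, cm_Cmul, ih, Fq]
    push_cast
    rw [add_mul, add_smul]
    abel

end gen

section Xi

variable {F : Type*} [Field F] {ι : Type*} [Fintype ι] [DecidableEq ι]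
  {r : Type*} [Fintype r] [DecidableEq r]

/-- Polynomials in `x` over the power series in `s`, written in `x` and `σ`. -/
noncomputable def Xi (T : Polynomial F) : Polynomial (PowerSeries F) →+* PowerSeries (Polynomial F) :=
  Polynomial.eval₂RingHom (emb T) (PowerSeries.C Polynomial.X)

lemma Xi_C (T : Polynomial F) (f : PowerSeries F) : Xi T (Polynomial.C f) = emb T f := by
  rw [Xi, Polynomial.coe_eval₂RingHom, Polynomial.eval₂_C]

lemma Xi_X (T : Polynomial F) : Xi T Polynomial.X = PowerSeries.C Polynomial.X := by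
  rw [Xi, Polynomial.coe_eval₂RingHom, Polynomial.eval₂_X]

lemma dx_Xi (T : Polynomial F) (f : Polynomial (PowerSeries F)) :
    dx (pd F) T (Xi T f) = PowerSeries.C T * Xi T (Polynomial.derivative f) := by
  induction f using Polynomial.induction_on' with
  | add f g hf hg => rw [map_add, map_add, hf, hg, map_add, map_add, mul_add]
  | monomial n a =>
    rw [← Polynomial.C_mul_X_pow_eq_monomial, map_mul (Xi T), map_pow (Xi T), Xi_C, Xi_X,
      Polynomial.derivative_C_mul, map_mul (Xi T), Xi_C, der_leib, dx_emb, mul_zero, add_zero,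
      Polynomial.derivative_X_pow, map_mul (Xi T), map_pow (Xi T), Xi_X, Xi_C, map_natCast (emb T)]
    rw [der_pow, dx_C, pd_apply, Polynomial.derivative_X, mul_one]
    ring

/-- `1 - c_i T_i σ`. -/
noncomputable def nu (z c : ι → F) (i : ι) : PowerSeries (Polynomial F) :=
  1 - PowerSeries.C (Polynomial.C (c i) * Tc z i) * PowerSeries.X

lemma uu_nu (z c : ι → F) (i : ι) :
    uu z c i = PowerSeries.C (Polynomial.X - Polynomial.C (z i)) * nu z c i := by
  rw [uu_eq, nu, ← TT_eq z i]
  simp only [map_mul]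
  ring

lemma Xi_TT (z c : ι → F) : Xi (TT z) (TT (pos z c)) =
    PowerSeries.C (TT z) * ∏ i, nu z c i := by
  have h1 : Xi (TT z) (TT (pos z c)) = ∏ i, uu z c i := by
    have h0 : TT (pos z c) = ∏ i, (Polynomial.X - Polynomial.C (pos z c i)) := rfl
    rw [h0, map_prod]
    refine Finset.prod_congr rfl fun i _ => ?_
    rw [map_sub, Xi_X, Xi_C]
    rfl
  rw [h1]
  have h2 : PowerSeries.C (TT z) = ∏ i, (PowerSeries.C (Polynomial.X - Polynomial.C (z i)) :
      PowerSeries (Polynomial F)) := by
    rw [TT, map_prod]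
  rw [h2, ← Finset.prod_mul_distrib]
  exact Finset.prod_congr rfl fun i _ => uu_nu z c i

lemma C_TT_ne (z : ι → F) : (PowerSeries.C (TT z) : PowerSeries (Polynomial F)) ≠ 0 := by
  intro h
  have h1 := congrArg (PowerSeries.coeff 0) h
  rw [PowerSeries.coeff_C, if_pos rfl, map_zero] at h1
  exact (TT_monic z).ne_zero h1

lemma Xi_Tc (z c : ι → F) (i : ι) : Xi (TT z) (Tc (pos z c) i) =
    (∏ j, nu z c j) * ee z c i := by
  have h1 : Xi (TT z) (Polynomial.X - Polynomial.C (pos z c i)) = uu z c i := by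
    rw [map_sub, Xi_X, Xi_C]
    rfl
  have h2 := congrArg (Xi (TT z)) (TT_eq (pos z c) i)
  rw [map_mul, h1, Xi_TT, ← uu_ee z c i] at h2
  exact mul_left_cancel₀ (uu_ne z c i) (by linear_combination h2)

lemma Xi_curv (z c : ι → F) (A : ι → Matrix r r (PowerSeries F)) (m : ℕ) :
    (curv A (pos z c) m).map (Xi (TT z)) =
      (∏ j, nu z c j) ^ m • pc (pd F) (TT z) (AA z c A) 1 m := by
  set υ := ∏ j, nu z c j with hυ
  have hT := Xi_TT z c
  rw [← hυ] at hT
  have hT' : Xi (TT z) (Polynomial.derivative (TT (pos z c))) =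
      PowerSeries.C (Polynomial.derivative (TT z)) * υ + dx (pd F) (TT z) υ := by
    have h1 := dx_Xi (TT z) (TT (pos z c))
    rw [hT, der_leib, dx_C, pd_apply, map_mul] at h1
    refine mul_left_cancel₀ (C_TT_ne z) ?_
    linear_combination -h1
  have hN : (NN A (pos z c)).map (Xi (TT z)) = υ • AA z c A := by
    rw [NN, sum_map_hom, AA, lc, Finset.smul_sum]
    refine Finset.sum_congr rfl fun i _ => ?_
    rw [smul_map_hom, Xi_Tc, ← hυ, smul_smul]
    congr 1
    ext1 a b
    simp only [Matrix.map_apply]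
    rw [Xi_C]
  induction m with
  | zero =>
    rw [pow_zero, one_smul, pc]
    exact Matrix.map_one _ (map_zero _) (map_one _)
  | succ m ih =>
    have hcs : ∀ a b, curv A (pos z c) (m + 1) a b = TT (pos z c) *
        Polynomial.derivative (curv A (pos z c) m a b) -
        (m : Polynomial (PowerSeries F)) * Polynomial.derivative (TT (pos z c)) *
          curv A (pos z c) m a b - (NN A (pos z c) * curv A (pos z c) m) a b := fun a b => rfl
    have hNc : ((NN A (pos z c) * curv A (pos z c) m)).map (Xi (TT z)) =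
        (υ • AA z c A) * (υ ^ m • pc (pd F) (TT z) (AA z c A) 1 m) := by
      rw [Matrix.map_mul, hN, ih]
    ext1 a b
    have h1 : Xi (TT z) (curv A (pos z c) m a b) =
        υ ^ m * pc (pd F) (TT z) (AA z c A) 1 m a b := congrFun (congrFun ih a) b
    have h2 : Xi (TT z) ((NN A (pos z c) * curv A (pos z c) m) a b) =
        υ * υ ^ m * (AA z c A * pc (pd F) (TT z) (AA z c A) 1 m) a b := by
      have h3 := congrFun (congrFun hNc a) b
      rw [smul_mul_smul_comm, Matrix.smul_apply, smul_eq_mul] at h3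
      exact h3
    have h4 := dx_Xi (TT z) (curv A (pos z c) m a b)
    rw [h1, der_leib] at h4
    have h5 : dx (pd F) (TT z) (υ ^ m) * υ = (m : PowerSeries (Polynomial F)) * υ ^ m *
        dx (pd F) (TT z) υ := by
      rw [der_pow]
      rcases m with _ | m
      · simp
      · rw [Nat.add_sub_cancel]
        ring
    rw [Matrix.map_apply, hcs, map_sub, map_sub, map_mul, map_mul, map_mul, map_natCast, hT, hT',
      h1, h2, Matrix.smul_apply, smul_eq_mul]
    have h6 : pc (pd F) (TT z) (AA z c A) 1 (m + 1) a b =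
        dx (pd F) (TT z) (pc (pd F) (TT z) (AA z c A) 1 m a b) -
        PowerSeries.C ((m : Polynomial F) * Polynomial.derivative (TT z)) *
          pc (pd F) (TT z) (AA z c A) 1 m a b -
        (AA z c A * pc (pd F) (TT z) (AA z c A) 1 m) a b := rfl
    rw [h6, map_mul PowerSeries.C, map_natCast, pow_succ]
    linear_combination (-υ) * h4 + pc (pd F) (TT z) (AA z c A) 1 m a b * h5

lemma coeff_Xi (T : Polynomial F) (f : Polynomial (PowerSeries F)) (k : ℕ) :
    PowerSeries.coeff k (Xi T f) = T ^ k * f.sum fun n a =>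
      Polynomial.C (PowerSeries.coeff k a) * Polynomial.X ^ n := by
  rw [Xi, Polynomial.coe_eval₂RingHom, Polynomial.eval₂_eq_sum, Polynomial.sum, Polynomial.sum,
    map_sum, Finset.mul_sum]
  refine Finset.sum_congr rfl fun n _ => ?_
  rw [← map_pow, mul_comm, PowerSeries.coeff_C_mul, coeff_emb]
  ring

lemma coeff_sum (f : Polynomial (PowerSeries F)) (k n : ℕ) :
    (f.sum fun n a => Polynomial.C (PowerSeries.coeff k a) * Polynomial.X ^ n).coeff n =
      PowerSeries.coeff k (f.coeff n) := by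
  rw [Polynomial.sum, Polynomial.finset_sum_coeff]
  simp only [Polynomial.coeff_C_mul, Polynomial.coeff_X_pow, mul_ite, mul_one, mul_zero]
  rw [Finset.sum_ite_eq]
  split_ifs with h
  · rfl
  · rw [Polynomial.notMem_support_iff.mp h, map_zero]

end Xi

lemma WI.smul_map {R R' : Type*} [CommRing R] [CommRing R'] {φ : R →+* R'} {r : Type*} [Fintype r]
    [DecidableEq r] {p : ℕ} (g : PowerSeries R) {Z : Matrix r r (PowerSeries R')}
    (hZ : WI φ p Z) : WI φ p (PowerSeries.map φ g • Z) := by
  intro k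
  have h1 : cm k (PowerSeries.map φ g • Z) = ∑ ij ∈ Finset.HasAntidiagonal.antidiagonal k,
      φ (PowerSeries.coeff ij.1 g) • cm ij.2 Z := by
    ext1 a b
    rw [cm, Matrix.map_apply, Matrix.smul_apply, smul_eq_mul, PowerSeries.coeff_mul,
      Matrix.sum_apply]
    refine Finset.sum_congr rfl fun ij _ => ?_
    rw [PowerSeries.coeff_map]
    rfl
  rw [h1, Finset.smul_sum]
  refine IM.sum _ fun ij hij => ?_
  rw [Finset.HasAntidiagonal.mem_antidiagonal] at hij
  rw [smul_comm]
  exact ((hZ ij.2).dvd (wt_mono (by omega))).smul _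

section main

variable {F : Type*} [Field F] [CharZero F] {ι : Type*} [Fintype ι] [DecidableEq ι]
  {r : Type*} [Fintype r] [DecidableEq r] {O : Type*} [CommRing O] (φ : O →+* F)
  {p : ℕ} (hp : p.Prime) (hunit : ∀ m : ℕ, ¬ p ∣ m → IsUnit (m : O)) (z c : ι → O)
    (hz : ∀ i j, i ≠ j → IsUnit (z i - z j))
    (A0 : ι → Matrix r r O) (E : Matrix r r (Polynomial O))
    (hE : curv A0 z p = (p : Polynomial O) • E)
    (A : ι → Matrix r r (PowerSeries F))
    (hA0 : ∀ i, (A i).map (PowerSeries.constantCoeff (R := F)) = (A0 i).map φ)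
    (hA : Schl (fun i => φ (z i)) (fun i => φ (c i)) A)

lemma nu_prod_map : ∏ i, nu (fun i => φ (z i)) (fun i => φ (c i)) i =
    PowerSeries.map (Polynomial.mapRingHom φ)
      (∏ i, (1 - PowerSeries.C (Polynomial.C (c i) * Tc z i) * PowerSeries.X)) := by
  rw [map_prod]
  refine Finset.prod_congr rfl fun i _ => ?_
  rw [nu, map_sub (PowerSeries.map (Polynomial.mapRingHom φ)),
    map_mul (PowerSeries.map (Polynomial.mapRingHom φ)),
    map_one (PowerSeries.map (Polynomial.mapRingHom φ)), PowerSeries.map_C, PowerSeries.map_X,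
    Polynomial.coe_mapRingHom, Polynomial.map_mul, Polynomial.map_C, Tc_map]

include hp hunit hz hE hA0 hA in
/-- The p-curvature of the deformed system is zero modulo `p`. -/
theorem main_pc (k n : ℕ) (a b : r) : ∃ y : O, (p : F) * φ y = (wt p k : F) *
    PowerSeries.coeff k ((curv A (pos (fun i => φ (z i)) (fun i => φ (c i))) p a b).coeff n) := by
  set zF : ι → F := fun i => φ (z i) with hzF
  set cF : ι → F := fun i => φ (c i) with hcF
  set P := sol (BB zF cF A) with hP
  have hpF : (p : F) ≠ 0 := by exact_mod_cast hp.ne_zero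
  have hPW : WI (Polynomial.mapRingHom φ) p P := P_WI φ hp hunit z c hz A0 E hE A hA0 hA
  have hPi : WI (Polynomial.mapRingHom φ) p P⁻¹ := hPW.inv (cm_zero_sol _) (sol_inv _)
  have h0 : (fun i => (A i).map (PowerSeries.constantCoeff (R := F))) =
      fun i => (A0 i).map φ := funext hA0
  have h1 := gauge_P zF cF (ne_of_unit φ z hz) A hA
  rw [h0] at h1
  set N : Matrix r r (Polynomial F) := NN (fun i => (A0 i).map φ) zF with hN
  have hNm : (NN A0 z).map (Polynomial.mapRingHom φ) = N := by
    rw [hN, NN, NN, sum_map_hom]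
    refine Finset.sum_congr rfl fun i _ => ?_
    rw [smul_map_hom, Polynomial.coe_mapRingHom, Tc_map]
    congr 1
    ext1 a b
    simp
  set Y : Matrix r r (PowerSeries (Polynomial F)) :=
    PowerSeries.C (Polynomial.C (p : F)⁻¹) • pc (pd F) (TT zF) (N.map (PowerSeries.C :
      Polynomial F →+* PowerSeries (Polynomial F))) P⁻¹ p with hY
  have hYW : WI (Polynomial.mapRingHom φ) p Y := by
    intro k
    obtain ⟨M, hM⟩ := hPi k
    have hE' : IF (pd O) (TT z) (NN A0 z) 0 p 1 = (p : Polynomial O) • E := by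
      rw [← curv_eq, hE]
    obtain ⟨E', hE'⟩ := IF_dvd hp (TT z) (TT_monic z) (NN A0 z) E hE' k M
    refine ⟨E', ?_⟩
    have h2 := IF_map φ (TT z) (NN A0 z) k p M
    rw [hE', hM, hNm, TT_map, IF_smul] at h2
    rw [hY, cm_smul_C, cm_pc, smul_comm, ← h2]
    ext1 x y
    rw [Matrix.smul_apply, Matrix.map_apply, Matrix.map_apply, Matrix.smul_apply, smul_eq_mul,
      smul_eq_mul, map_mul, map_natCast, ← mul_assoc]
    have h3 : (p : Polynomial F) = Polynomial.C (p : F) := by simp
    rw [h3, ← map_mul, inv_mul_cancel₀ hpF, map_one, one_mul]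
  have hZ : WI (Polynomial.mapRingHom φ) p
      ((∏ i, nu zF cF i) ^ p • (P * Y)) := by
    rw [nu_prod_map φ z c, ← map_pow]
    exact (hPW.mul hYW).smul_map _
  have hpc : pc (pd F) (TT zF) (AA zF cF A) 1 p = P * pc (pd F) (TT zF) (N.map (PowerSeries.C :
      Polynomial F →+* PowerSeries (Polynomial F))) P⁻¹ p := by
    rw [← pc_gauge (pd F) (TT zF) (AA zF cF A) P _ P⁻¹ h1 p, sol_inv]
  have hX := Xi_curv zF cF A p
  rw [hpc] at hX
  have hX2 : PowerSeries.C (Polynomial.C (p : F)⁻¹) • (curv A (pos zF cF) p).map (Xi (TT zF)) =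
      (∏ i, nu zF cF i) ^ p • (P * Y) := by
    rw [hX, hY, mul_smul_comm, smul_comm]
  rw [← hX2] at hZ
  obtain ⟨M, hM⟩ := hZ k
  rw [cm_smul_C] at hM
  have h4 := congrFun (congrFun hM a) b
  rw [Matrix.map_apply, Matrix.smul_apply, Matrix.smul_apply, smul_eq_mul, smul_eq_mul, cm,
    Matrix.map_apply, Matrix.map_apply, coeff_Xi] at h4
  have hw : ((wt p k : ℕ) : Polynomial F) = Polynomial.C ((wt p k : ℕ) : F) := by simp
  obtain ⟨e, he⟩ := monic_cancel φ ((TT_monic z).pow k)
    (Polynomial.C ((wt p k : ℕ) : F) * (Polynomial.C (p : F)⁻¹ *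
      (curv A (pos zF cF) p a b).sum fun n a =>
      Polynomial.C (PowerSeries.coeff k a) * Polynomial.X ^ n)) (M a b) (by
        rw [Polynomial.map_pow, TT_map]
        have h5 : (M a b).map φ = Polynomial.mapRingHom φ (M a b) := rfl
        rw [h5, h4, hw]
        ring)
  refine ⟨e.coeff n, ?_⟩
  have h5 := congrArg (fun f => Polynomial.coeff f n) he
  simp only [Polynomial.coeff_map, Polynomial.coeff_C_mul] at h5
  rw [coeff_sum] at h5
  rw [h5]
  field_simp

end main

end Pool.Agent.X98.SL
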