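import Pool.Agent.X98.SL.Gen

set_option autoImplicit false
set_option linter.unusedSectionVars false

/-!
# Regularity at a pole, and the operator `∇` on power series in `σ = 1 / T`
-/

namespace Pool.Agent.X98.SL

open Pool.Agent.X98.KZ Pool.Agent.X98.SC PowerSeries

variable {L : Type*} [CommRing L] (δ : Der L) (T : L)
  {r : Type*} [Fintype r] [DecidableEq r]

/-- All entries are divisible. -/
def MD (f : L) (M : Matrix r r L) : Prop := ∃ M' : Matrix r r L, M = f • M'

lemma MD.add {f : L} {M N : Matrix r r L} (hM : MD f M) (hN : MD f N) : MD f (M + N) := by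
  obtain ⟨M', rfl⟩ := hM
  obtain ⟨N', rfl⟩ := hN
  exact ⟨M' + N', by rw [smul_add]⟩

lemma MD.neg {f : L} {M : Matrix r r L} (hM : MD f M) : MD f (-M) := by
  obtain ⟨M', rfl⟩ := hM
  exact ⟨-M', by rw [smul_neg]⟩

lemma MD.sum {f : L} {α : Type*} (s : Finset α) {M : α → Matrix r r L} (h : ∀ i ∈ s, MD f (M i)) :
    MD f (∑ i ∈ s, M i) := by
  classical
  induction s using Finset.induction_on with
  | empty => exact ⟨0, by simp⟩
  | insert i s hi ih =>
    rw [Finset.sum_insert hi]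
    exact (h i (Finset.mem_insert_self i s)).add (ih fun j hj => h j (Finset.mem_insert_of_mem hj))

lemma MD.mul {f g : L} {M N : Matrix r r L} (hM : MD f M) (hN : MD g N) : MD (f * g) (M * N) := by
  obtain ⟨M', rfl⟩ := hM
  obtain ⟨N', rfl⟩ := hN
  exact ⟨M' * N', by rw [smul_mul_smul_comm]⟩

lemma MD.smul {f : L} (g : L) {M : Matrix r r L} (hM : MD f M) : MD f (g • M) := by
  obtain ⟨M', rfl⟩ := hM
  exact ⟨g • M', by rw [smul_comm]⟩

lemma MD.smul_dvd {f g h : L} (hg : h ∣ g) {M : Matrix r r L} (hM : MD f M) :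
    MD (h * f) (g • M) := by
  obtain ⟨M', rfl⟩ := hM
  obtain ⟨g', rfl⟩ := hg
  exact ⟨g' • M', by rw [smul_smul, smul_smul]; congr 1; ring⟩

/-- Regularity. -/
theorem reg [Algebra ℚ L] {u t : L} (hT : T = u * t) (hu : δ u = 1) (κ : L)
    (M Q : Matrix r r L⟦X⟧)
    (hM : ∀ k, MD (u ^ (k + 1)) (cm k M)) (h : Q.map ds + C κ • Q.map (dx δ T) = M * Q)
    (h0 : cm 0 Q = 1) : ∀ k, MD (u ^ k) (cm k Q) := by
  intro k
  induction k using Nat.strong_induction_on with
  | _ k ih =>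
    rcases k with _ | k
    · exact ⟨cm 0 Q, by rw [pow_zero, one_smul]⟩
    · have h1 := congrArg (cm k) h
      rw [cm_add, cm_ds, cm_smul_C, cm_dx, cm_mul] at h1
      have h2 : MD (u ^ (k + 1)) (T • (cm k Q).map δ - ((k : L) * δ T) • cm k Q) := by
        obtain ⟨R, hR⟩ := ih k (by omega)
        refine ⟨t • R.map δ - ((k : L) * δ t) • R, ?_⟩
        rw [hR]
        ext1 a b
        simp only [Matrix.sub_apply, Matrix.smul_apply, Matrix.map_apply, smul_eq_mul,
          Derivation.leibniz, Derivation.leibniz_pow, hu, hT, nsmul_eq_mul]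
        rcases k with _ | k
        · simp [mul_assoc]
        · rw [Nat.add_sub_cancel]
          push_cast
          ring
      have h3 : MD (u ^ (k + 1)) (∑ ij ∈ Finset.HasAntidiagonal.antidiagonal k,
          cm ij.1 M * cm ij.2 Q) := by
        refine MD.sum _ fun ij hij => ?_
        rw [Finset.HasAntidiagonal.mem_antidiagonal] at hij
        have h4 := (hM ij.1).mul (ih ij.2 (by omega))
        rw [← pow_add] at h4
        have h5 : ij.1 + 1 + ij.2 = k + 1 := by omega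
        rwa [h5] at h4
      have h4 : ((k : L) + 1) • cm (k + 1) Q = ∑ ij ∈ Finset.HasAntidiagonal.antidiagonal k,
          cm ij.1 M * cm ij.2 Q + -(κ • (T • (cm k Q).map δ - ((k : L) * δ T) • cm k Q)) := by
        rw [← h1]; abel
      have h5 : MD (u ^ (k + 1)) (((k : L) + 1) • cm (k + 1) Q) := by
        rw [h4]
        exact h3.add (h2.smul κ).neg
      have h6 : algebraMap ℚ L ((k : ℚ) + 1)⁻¹ * ((k : L) + 1) = 1 := by
        have h7 : ((k : L) + 1) = algebraMap ℚ L ((k : ℚ) + 1) := by simp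
        rw [h7, ← map_mul, inv_mul_cancel₀ (by positivity), map_one]
      have h7 := h5.smul (algebraMap ℚ L ((k : ℚ) + 1)⁻¹)
      rwa [smul_smul, h6, one_smul] at h7

/-- The equation of the product. -/
lemma prod_eq (κ : L) (A B P U A0 : Matrix r r L⟦X⟧) (hPs : P.map ds = B * P)
    (hPx : P.map (dx δ T) = A * P - P * A0)
    (hU : U.map ds + C κ • U.map (dx δ T) = C κ • (A0 * U)) :
    (P * U).map ds + C κ • (P * U).map (dx δ T) = (B + C κ • A) * (P * U) := by
  rw [dm_mul, dm_mul, hPs, hPx]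
  have h1 : P * U.map ds + C κ • (P * U.map (dx δ T)) = C κ • (P * (A0 * U)) := by
    rw [← mul_smul_comm, ← mul_add, hU, mul_smul_comm]
  have h2 : B * P * U + P * U.map ds + C κ • ((A * P - P * A0) * U + P * U.map (dx δ T)) =
      B * P * U + C κ • ((A * P - P * A0) * U) +
        (P * U.map ds + C κ • (P * U.map (dx δ T))) := by
    rw [smul_add]; abel
  rw [h2, h1]
  simp only [sub_mul, add_mul, smul_sub, smul_mul_assoc, mul_assoc]
  abel

/-- `T ^ (q + 1) ∇ (T ^ (-q) Y)`. -/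
noncomputable def Fq (N : Matrix r r L) (q : ℕ) (Y : Matrix r r L) : Matrix r r L :=
  T • Y.map δ - ((q : L) * δ T) • Y - N * Y

/-- `T ^ (q + m) ∇ ^ m (T ^ (-q) Y)`. -/
noncomputable def IF (N : Matrix r r L) (q : ℕ) : ℕ → Matrix r r L → Matrix r r L
  | 0, Y => Y
  | m + 1, Y => Fq δ T N (q + m) (IF N q m Y)

/-- The derivation `∂_x` for `σ = 1 / T`. -/
noncomputable def dh : Der L⟦X⟧ :=
  mkDer (fun f => X * dx δ T f) (fun f g => by rw [map_add, mul_add])
    (fun f g => by rw [der_leib]; ring)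

lemma dh_apply (f : L⟦X⟧) : dh δ T f = X * dx δ T f := rfl

/-- The operator `∇` for `σ = 1 / T`. -/
noncomputable def Hh (N : Matrix r r L) (Y : Matrix r r L⟦X⟧) : Matrix r r L⟦X⟧ :=
  Y.map (dh δ T) - (X : L⟦X⟧) • (N.map (C : L →+* L⟦X⟧) * Y)

lemma Hh_mul (N : Matrix r r L) (Y Z : Matrix r r L⟦X⟧) :
    Hh δ T N (Y * Z) = Hh δ T N Y * Z + Y * Z.map (dh δ T) := by
  rw [Hh, Hh, dm_mul]
  simp only [sub_mul, smul_mul_assoc, mul_assoc]
  abel

lemma Hh_add (N : Matrix r r L) (Y Z : Matrix r r L⟦X⟧) :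
    Hh δ T N (Y + Z) = Hh δ T N Y + Hh δ T N Z := by
  rw [Hh, Hh, Hh, dm_add]
  simp only [mul_add, smul_add]
  abel

lemma Hh_zero (N : Matrix r r L) : Hh δ T N 0 = 0 := by
  have h := Hh_add δ T N 0 0
  rw [add_zero] at h
  exact left_eq_add.mp h

lemma dx_mono (q : ℕ) (f : L) : dx δ T (X ^ q * C f) =
    X ^ q * C (T * δ f - (q : L) * δ T * f) := by
  ext1 n
  rw [coeff_dx, mul_comm (X ^ q), mul_comm (X ^ q), coeff_C_mul, coeff_C_mul, coeff_X_pow]
  split_ifs with h
  · rw [h]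
    simp
  · simp

lemma Hh_mono (N : Matrix r r L) (q : ℕ) (Y : Matrix r r L) :
    Hh δ T N ((X : L⟦X⟧) ^ q • Y.map (C : L →+* L⟦X⟧)) =
      (X : L⟦X⟧) ^ (q + 1) • (Fq δ T N q Y).map (C : L →+* L⟦X⟧) := by
  have h1 : N.map (C : L →+* L⟦X⟧) * Y.map (C : L →+* L⟦X⟧) =
      (N * Y).map (C : L →+* L⟦X⟧) := Matrix.map_mul.symm
  rw [Hh, mul_smul_comm, h1]
  ext1 a b
  simp only [Matrix.sub_apply, Matrix.smul_apply, Matrix.map_apply, smul_eq_mul, dh_apply, Fq]
  rw [dx_mono]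
  simp only [map_sub]
  ring

lemma Hh_iter (N : Matrix r r L) (q m : ℕ) (Y : Matrix r r L) :
    (Hh δ T N)^[m] ((X : L⟦X⟧) ^ q • Y.map (C : L →+* L⟦X⟧)) =
      (X : L⟦X⟧) ^ (q + m) • (IF δ T N q m Y).map (C : L →+* L⟦X⟧) := by
  induction m with
  | zero => rfl
  | succ m ih =>
    rw [Function.iterate_succ_apply', ih, Hh_mono]
    rfl

end Pool.Agent.X98.SL
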